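import Mathlib

/-!
# Groups with property FM have no virtual homomorphisms onto `ℤ`
-/

set_option autoImplicit false
set_option linter.unusedVariables false
set_option linter.unusedSectionVars false

namespace H84.Sch

open Filter Topology

open Classical in
/-- density on `[0, n]` -/
noncomputable def dens (n : ℕ) (B : Set ℤ) : ℝ :=
  (((Finset.range (n + 1)).filter fun i : ℕ => (i : ℤ) ∈ B).card : ℝ) / (n + 1)

theorem dens_nonneg (n : ℕ) (B : Set ℤ) : 0 ≤ dens n B := by
  unfold dens
  positivity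

theorem dens_univ (n : ℕ) : dens n Set.univ = 1 := by
  unfold dens
  simp only [Set.mem_univ, Finset.filter_true, Finset.card_range]
  push_cast
  field_simp

theorem dens_le_one (n : ℕ) (B : Set ℤ) : dens n B ≤ 1 := by
  classical
  unfold dens
  rw [div_le_one (by positivity)]
  have h := Finset.card_filter_le (Finset.range (n + 1)) fun i : ℕ => (i : ℤ) ∈ B
  rw [Finset.card_range] at h
  exact_mod_cast h

theorem dens_union (n : ℕ) {A B : Set ℤ} (h : Disjoint A B) :
    dens n (A ∪ B) = dens n A + dens n B := by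
  classical
  unfold dens
  rw [← add_div]
  congr 1
  rw [← Nat.cast_add, ← Finset.card_union_of_disjoint]
  · congr 2
    ext i
    simp only [Finset.mem_filter, Finset.mem_union, Set.mem_union]
    tauto
  · rw [Finset.disjoint_filter]
    intro i _ h1 h2
    exact Set.disjoint_left.1 h h1 h2

theorem dens_shift (n : ℕ) (B : Set ℤ) :
    |dens n ((fun k => k + 1) ⁻¹' B) - dens n B| ≤ 2 / (n + 1) := by
  classical
  unfold dens
  rw [← sub_div, abs_div, abs_of_pos (by positivity : (0 : ℝ) < (n : ℝ) + 1)]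
  apply div_le_div_of_nonneg_right _ (by positivity)
  set P := (Finset.range (n + 1)).filter fun i : ℕ => (i : ℤ) ∈ (fun k : ℤ => k + 1) ⁻¹' B
  set Q := (Finset.range (n + 1)).filter fun i : ℕ => (i : ℤ) ∈ B
  have h1 : P.card ≤ Q.card + 1 := by
    have hsub : P.image (fun i => i + 1) ⊆ insert (n + 1) Q := by
      intro j hj
      obtain ⟨i, hi, rfl⟩ := Finset.mem_image.1 hj
      simp only [P, Finset.mem_filter, Finset.mem_range, Set.mem_preimage] at hi
      rw [Finset.mem_insert]
      rcases Nat.lt_or_ge i n with h | h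
      · right
        simp only [Q, Finset.mem_filter, Finset.mem_range]
        refine ⟨by omega, ?_⟩
        push_cast
        exact hi.2
      · left
        omega
    have h2 := (Finset.card_le_card hsub).trans (Finset.card_insert_le _ _)
    rwa [Finset.card_image_of_injective _ (add_left_injective 1)] at h2
  have h2 : Q.card ≤ P.card + 1 := by
    have hsub : Q ⊆ insert 0 (P.image (fun i => i + 1)) := by
      intro j hj
      simp only [Q, Finset.mem_filter, Finset.mem_range] at hj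
      rw [Finset.mem_insert]
      rcases Nat.eq_zero_or_pos j with h | h
      · exact Or.inl h
      · right
        rw [Finset.mem_image]
        refine ⟨j - 1, ?_, by omega⟩
        simp only [P, Finset.mem_filter, Finset.mem_range, Set.mem_preimage]
        refine ⟨by omega, ?_⟩
        have : ((j - 1 : ℕ) : ℤ) + 1 = j := by omega
        rw [this]
        exact hj.2
    have h3 := (Finset.card_le_card hsub).trans (Finset.card_insert_le _ _)
    rwa [Finset.card_image_of_injective _ (add_left_injective 1)] at h3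
  have h3 : (P.card : ℝ) ≤ Q.card + 1 := by exact_mod_cast h1
  have h4 : (Q.card : ℝ) ≤ P.card + 1 := by exact_mod_cast h2
  rw [abs_le]
  constructor <;> linarith

/-- an invariant mean on `ℤ` -/
theorem exists_mean_int : ∃ μ : Set ℤ → ℝ, (∀ A, 0 ≤ μ A) ∧ μ Set.univ = 1 ∧
    (∀ A B, Disjoint A B → μ (A ∪ B) = μ A + μ B) ∧
    ∀ (c : ℤ) (A : Set ℤ), μ ((fun k => k + c) ⁻¹' A) = μ A := by
  set ω : Ultrafilter ℕ := hyperfilter ℕ with hω
  have hle : (ω : Filter ℕ) ≤ atTop := by
    rw [← Nat.cofinite_eq_atTop]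
    exact hyperfilter_le_cofinite
  have hlim : ∀ B : Set ℤ, ∃ x, Tendsto (fun n => dens n B) ω (𝓝 x) := by
    intro B
    obtain ⟨x, -, hx⟩ := (isCompact_Icc (a := (0 : ℝ)) (b := 1)).ultrafilter_le_nhds
      (ω.map fun n => dens n B) (by
        rw [le_principal_iff, Ultrafilter.mem_coe, Ultrafilter.mem_map]
        exact Filter.mem_of_superset Filter.univ_mem
          fun n _ => ⟨dens_nonneg n B, dens_le_one n B⟩)
    exact ⟨x, hx⟩
  choose μ hμ using hlim
  have hone : ∀ A : Set ℤ, μ ((fun k => k + 1) ⁻¹' A) = μ A := by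
    intro A
    have h1 : Tendsto (fun n => dens n ((fun k => k + 1) ⁻¹' A) - dens n A) ω
        (𝓝 (μ ((fun k => k + 1) ⁻¹' A) - μ A)) := (hμ _).sub (hμ _)
    have h2 : Tendsto (fun n => dens n ((fun k => k + 1) ⁻¹' A) - dens n A) ω (𝓝 0) := by
      apply squeeze_zero_norm (a := fun n : ℕ => 2 / ((n : ℝ) + 1))
      · intro n
        rw [Real.norm_eq_abs]
        exact dens_shift n A
      · apply Tendsto.mono_left _ hle
        have h3 := tendsto_one_div_add_atTop_nhds_zero_nat (𝕜 := ℝ)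
        have h4 := h3.const_mul 2
        rw [mul_zero] at h4
        refine h4.congr fun n => ?_
        rw [mul_one_div]
    have h3 := tendsto_nhds_unique h1 h2
    linarith
  refine ⟨μ, ?_, ?_, ?_, ?_⟩
  · intro A
    exact ge_of_tendsto' (hμ A) fun n => dens_nonneg n A
  · refine tendsto_nhds_unique (hμ Set.univ) ?_
    simp only [dens_univ]
    exact tendsto_const_nhds
  · intro A B hAB
    refine tendsto_nhds_unique (hμ (A ∪ B)) ?_
    simp only [dens_union _ hAB]
    exact (hμ A).add (hμ B)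
  · intro c
    induction c using Int.induction_on with
    | zero => intro A; simp
    | succ n ih =>
      intro A
      have h1 : (fun k : ℤ => k + ((n : ℤ) + 1)) ⁻¹' A =
          (fun k => k + (n : ℤ)) ⁻¹' ((fun k => k + 1) ⁻¹' A) := by
        ext k
        simp only [Set.mem_preimage]
        rw [add_assoc]
      rw [h1, ih, hone]
    | pred n ih =>
      intro A
      have h1 : (fun k : ℤ => k + (-(n : ℤ))) ⁻¹' A =
          (fun k => k + 1) ⁻¹' ((fun k => k + (-(n : ℤ) - 1)) ⁻¹' A) := by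
        ext k
        simp only [Set.mem_preimage]
        have : k + 1 + (-(n : ℤ) - 1) = k + -(n : ℤ) := by ring
        rw [this]
      rw [← hone, ← h1, ih]

/-- **FM implies no virtual homomorphism to `ℤ`.** -/
theorem not_fm_of_hom {K : Type} [Group K] (L : Subgroup K) [L.FiniteIndex]
    (χ : L →* Multiplicative ℤ) (hχ : χ ≠ 1) :
    ∃ (X : Type) (_ : MulAction K X),
      (∃ m : Set X → ℝ, (∀ A, 0 ≤ m A) ∧ m Set.univ = 1 ∧
        (∀ A B, Disjoint A B → m (A ∪ B) = m A + m B) ∧
        ∀ (k : K) (A : Set X), m ((fun x => k • x) ⁻¹' A) = m A) ∧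
      ∀ x : X, ¬ (MulAction.orbit K x).Finite := by
  classical
  -- a generator of the image
  obtain ⟨t, ht⟩ : ∃ t : L, χ.range = Subgroup.zpowers (χ t) := by
    have hcyc : IsCyclic χ.range := inferInstance
    obtain ⟨⟨g, hg⟩, hgen⟩ := hcyc.exists_generator
    obtain ⟨t, rfl⟩ := hg
    refine ⟨t, le_antisymm ?_ ?_⟩
    · intro y hy
      obtain ⟨n, hn⟩ := Subgroup.mem_zpowers_iff.1 (hgen ⟨y, hy⟩)
      exact Subgroup.mem_zpowers_iff.2 ⟨n, congrArg Subtype.val hn⟩
    · rw [Subgroup.zpowers_le]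
      exact ⟨t, rfl⟩
  have ht0 : Multiplicative.toAdd (χ t) ≠ 0 := by
    intro h0
    apply hχ
    ext l
    have h1 : χ l ∈ χ.range := ⟨l, rfl⟩
    have h2 : χ t = 1 := Multiplicative.toAdd.injective h0
    rw [ht, h2, Subgroup.zpowers_one_eq_bot, Subgroup.mem_bot] at h1
    rw [h1]
    rfl
  -- every element of `L` is `t ^ n` modulo the kernel
  have hexp : ∀ l : L, ∃ n : ℤ, χ l = χ t ^ n := by
    intro l
    have h1 : χ l ∈ χ.range := ⟨l, rfl⟩
    rw [ht] at h1
    obtain ⟨n, hn⟩ := Subgroup.mem_zpowers_iff.1 h1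
    exact ⟨n, hn.symm⟩
  let M : Subgroup K := χ.ker.map L.subtype
  have hM : ∀ l l' : L, χ l = χ l' → ∀ x : K, ((x * l : K) : K ⧸ M) = ((x * l' : K) : K ⧸ M) := by
    intro l l' h x
    rw [QuotientGroup.eq]
    refine ⟨l⁻¹ * l', ?_, ?_⟩
    · show χ (l⁻¹ * l') = 1
      rw [map_mul, map_inv, h, inv_mul_cancel]
    · show ((l : K)⁻¹ * l' : K) = (x * l)⁻¹ * (x * l')
      group
  have hM' : ∀ l l' : L, ∀ x : K, ((x * l : K) : K ⧸ M) = ((x * l' : K) : K ⧸ M) → χ l = χ l' := by
    intro l l' x h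
    rw [QuotientGroup.eq] at h
    obtain ⟨a, ha, haa⟩ := h
    have h1 : (a : K) = (l : K)⁻¹ * l' := by
      have : (a : K) = (x * l)⁻¹ * (x * l') := haa
      rw [this]
      group
    have h2 : a = l⁻¹ * l' := Subtype.ext h1
    have h3 : χ a = 1 := ha
    rw [h2, map_mul, map_inv, inv_mul_eq_one] at h3
    exact h3
  refine ⟨K ⧸ M, inferInstance, ?_, ?_⟩
  · obtain ⟨μ, h0, h1, h2, h3⟩ := exists_mean_int
    let mx : K → Set (K ⧸ M) → ℝ := fun x A => μ {n : ℤ | ((x * (t ^ n : L) : K) : K ⧸ M) ∈ A}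
    have hmx : ∀ (x : K) (l : L) (A : Set (K ⧸ M)), mx (x * l) A = mx x A := by
      intro x l A
      obtain ⟨c, hc⟩ := hexp l
      show μ {n : ℤ | ((x * l * (t ^ n : L) : K) : K ⧸ M) ∈ A} = μ {n : ℤ | ((x * (t ^ n : L) : K) : K ⧸ M) ∈ A}
      rw [← h3 c {n : ℤ | ((x * (t ^ n : L) : K) : K ⧸ M) ∈ A}]
      congr 1
      ext n
      show (_ ∈ A) ↔ (((x * (t ^ (n + c) : L) : K) : K ⧸ M) ∈ A)
      have h4 : ((x * l * (t ^ n : L) : K) : K ⧸ M) = ((x * (t ^ (n + c) : L) : K) : K ⧸ M) := by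
        have h5 := hM (l * t ^ n) (t ^ (n + c)) (by
          rw [map_mul, map_zpow, map_zpow, hc, ← zpow_add, add_comm]) x
        rw [← h5]
        congr 1
        push_cast
        group
      rw [h4]
    have hfin : Fintype (K ⧸ L) := Fintype.ofFinite _
    let mq : K ⧸ L → Set (K ⧸ M) → ℝ := fun q A => mx q.out A
    have hmq : ∀ (x : K) (A : Set (K ⧸ M)), mq (x : K ⧸ L) A = mx x A := by
      intro x A
      have h4 : ((x : K ⧸ L).out : K ⧸ L) = (x : K ⧸ L) := QuotientGroup.out_eq' _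
      rw [QuotientGroup.eq] at h4
      have h5 := hmx ((x : K ⧸ L).out) ⟨_, h4⟩ A
      have h6 : (x : K ⧸ L).out * ((x : K ⧸ L).out⁻¹ * x) = x := mul_inv_cancel_left _ _
      show mx (x : K ⧸ L).out A = mx x A
      rw [← h5]
      show mx ((x : K ⧸ L).out * ((x : K ⧸ L).out⁻¹ * x)) A = mx x A
      rw [h6]
    have hcard : (0 : ℝ) < Fintype.card (K ⧸ L) := by
      exact_mod_cast Fintype.card_pos
    refine ⟨fun A => (∑ q : K ⧸ L, mq q A) / Fintype.card (K ⧸ L), ?_, ?_, ?_, ?_⟩
    · intro A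
      exact div_nonneg (Finset.sum_nonneg fun q _ => h0 _) hcard.le
    · have h4 : ∀ q : K ⧸ L, mq q Set.univ = 1 := by
        intro q
        show μ {n : ℤ | _ ∈ Set.univ} = 1
        rw [← h1]
        congr 1
      show (∑ q : K ⧸ L, mq q Set.univ) / (Fintype.card (K ⧸ L) : ℝ) = 1
      rw [Finset.sum_congr rfl fun q _ => h4 q, Finset.sum_const, Finset.card_univ, nsmul_eq_mul,
        mul_one, div_self hcard.ne']
    · intro A B hAB
      have h4 : ∀ q : K ⧸ L, mq q (A ∪ B) = mq q A + mq q B := by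
        intro q
        show μ {n : ℤ | ((q.out * (t ^ n : L) : K) : K ⧸ M) ∈ A ∪ B} = _
        exact h2 {n : ℤ | ((q.out * (t ^ n : L) : K) : K ⧸ M) ∈ A}
          {n : ℤ | ((q.out * (t ^ n : L) : K) : K ⧸ M) ∈ B}
          (Set.disjoint_left.2 fun n hn hn' => Set.disjoint_left.1 hAB hn hn')
      show (∑ q : K ⧸ L, mq q (A ∪ B)) / (Fintype.card (K ⧸ L) : ℝ) = _
      rw [Finset.sum_congr rfl fun q _ => h4 q, Finset.sum_add_distrib, add_div]
    · intro k A
      show (∑ q : K ⧸ L, mq q ((fun x => k • x) ⁻¹' A)) / (Fintype.card (K ⧸ L) : ℝ) =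
        (∑ q : K ⧸ L, mq q A) / (Fintype.card (K ⧸ L) : ℝ)
      congr 1
      rw [← Equiv.sum_comp (MulAction.toPerm k : Equiv.Perm (K ⧸ L)) (fun q => mq q A)]
      refine Finset.sum_congr rfl fun q _ => ?_
      obtain ⟨x, rfl⟩ := QuotientGroup.mk_surjective q
      show mq (x : K ⧸ L) ((fun x => k • x) ⁻¹' A) = mq ((k * x : K) : K ⧸ L) A
      rw [hmq, hmq]
      show μ {n : ℤ | k • ((x * (t ^ n : L) : K) : K ⧸ M) ∈ A} =
        μ {n : ℤ | ((k * x * (t ^ n : L) : K) : K ⧸ M) ∈ A}
      congr 1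
      ext n
      show ((k * (x * (t ^ n : L)) : K) : K ⧸ M) ∈ A ↔ _
      rw [← mul_assoc]
      rfl
  · rintro x hx
    obtain ⟨x, rfl⟩ := QuotientGroup.mk_surjective x
    -- infinitely many points `t ^ n` in the orbit
    have hinj : Function.Injective fun n : ℤ => (((t ^ n : L) : K) : K ⧸ M) := by
      intro a b hab
      have h4 := hM' (t ^ a) (t ^ b) 1 (by simpa using hab)
      rw [map_zpow, map_zpow] at h4
      have h5 := congrArg Multiplicative.toAdd h4
      rw [toAdd_zpow, toAdd_zpow, smul_eq_mul, smul_eq_mul] at h5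
      exact mul_right_cancel₀ ht0 h5
    apply Set.infinite_of_injective_forall_mem hinj (s := MulAction.orbit K (x : K ⧸ M)) _ hx
    intro n
    refine ⟨((t ^ n : L) : K) * x⁻¹, ?_⟩
    show ((((t ^ n : L) : K) * x⁻¹ * x : K) : K ⧸ M) = _
    rw [inv_mul_cancel_right]

end H84.Sch
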