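import Pool.Agent.H84.Sch.Hyp

/-!
# The gap `n √(log n)`
-/

set_option autoImplicit false
set_option linter.unusedVariables false
set_option linter.unusedSectionVars false

namespace H84.Sch

variable {G : Type} [Group G]

open Classical in
/-- the letters as a finite set -/
noncomputable def SymF (S : Finset G) : Finset G := S ∪ S.image (fun s => s⁻¹)

theorem mem_SymF {S : Finset G} {s : G} : s ∈ SymF S ↔ s ∈ Sym S := by
  classical
  unfold SymF Sym
  rw [Finset.mem_union, Finset.mem_image]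
  constructor
  · rintro (h | ⟨t, ht, rfl⟩)
    · exact Or.inl h
    · exact Or.inr (by rwa [inv_inv])
  · rintro (h | h)
    · exact Or.inl h
    · exact Or.inr ⟨s⁻¹, h, inv_inv s⟩

theorem coe_SymF (S : Finset G) : (SymF S : Set G) = Sym S := by
  ext s
  exact mem_SymF

theorem SymF_inv (S : Finset G) : ∀ s ∈ SymF S, s⁻¹ ∈ SymF S := fun s hs =>
  mem_SymF.2 (Sym_inv S s (mem_SymF.1 hs))

/-- The ball of the frozen statement. -/
def FB {X : Type} [MulAction G X] (S : Finset G) (m : ℕ) (x : X) : Set X :=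
  {y : X | ∃ g : G, (SimpleGraph.fromRel fun a b : G => a⁻¹ * b ∈ S).dist 1 g ≤ m ∧ g • x = y}

theorem FB_finite {X : Type} [MulAction G X] {S : Finset G}
    (hcl : Subgroup.closure (S : Set G) = ⊤) (m : ℕ) (x : X) : (FB S m x).Finite := by
  apply (Bl_finite (SymF S) m x).subset
  rintro y ⟨g, hg, rfl⟩
  obtain ⟨w, h1, h2, h3⟩ := exists_geod hcl 1 g
  rw [one_mul] at h3
  refine ⟨w, fun s hs => ?_, by rw [h2]; exact hg, by rw [h3]⟩
  rw [coe_SymF]
  exact h1 s hs

theorem FB_mono {X : Type} [MulAction G X] (S : Finset G) {m n : ℕ} (h : m ≤ n) (x : X) :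
    FB S m x ⊆ FB S n x := by
  rintro y ⟨g, hg, rfl⟩
  exact ⟨g, hg.trans h, rfl⟩

theorem self_mem_FB {X : Type} [MulAction G X] (S : Finset G) (m : ℕ) (x : X) : x ∈ FB S m x :=
  ⟨1, by rw [SimpleGraph.dist_self]; exact Nat.zero_le m, one_smul _ _⟩

/-- the asymptotic lower bound in terms of balls with respect to a good generating set -/
theorem asymp (S : Finset G) (hinv : ∀ s ∈ S, s⁻¹ ∈ S)
    (hcl : Subgroup.closure (S : Set G) = ⊤) {A : Finset G} (hAS : A ⊆ S)
    (hAinv : ∀ s ∈ A, s⁻¹ ∈ A) (hinf : (Subgroup.closure (A : Set G) : Set G).Infinite)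
    (hK : Dead (Subgroup.closure (A : Set G))) {N : ℕ} (hLG : LG (S : Set G) N) :
    ∃ n1 C2 : ℕ, ∀ (X : Type) [MulAction G X], FaithfulSMul G X → ∀ n : ℕ, n1 ≤ n →
      ∃ x : X, (n : ℝ) * √(Real.log n) ≤ (C2 : ℝ) * ((Bl (S : Set G) n x).ncard : ℝ) := by
  set R : ℕ := N + 1 with hR
  set C1 : ℕ := 2 * R + S.card + 2 with hC1
  refine ⟨⌈Real.exp (8 * C1)⌉₊ + (8 * R) ^ 2 + 4 * R, 32 * R * C1, ?_⟩
  intro X _ hfaith n hn
  have hR1 : 1 ≤ R := by omega
  have hRr : (1 : ℝ) ≤ R := by exact_mod_cast hR1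
  have hC1r : (2 : ℝ) ≤ C1 := by
    have : 2 ≤ C1 := by omega
    exact_mod_cast this
  -- size of `n`
  have hn1 : Real.exp (8 * C1) ≤ n := by
    calc Real.exp (8 * C1) ≤ (⌈Real.exp (8 * C1)⌉₊ : ℝ) := Nat.le_ceil _
      _ ≤ n := by
        have : ⌈Real.exp (8 * C1)⌉₊ ≤ n := by omega
        exact_mod_cast this
  have hn2 : (8 * (R : ℝ)) ^ 2 ≤ n := by
    have : (8 * R) ^ 2 ≤ n := by omega
    exact_mod_cast this
  have hn3 : 4 * (R : ℝ) ≤ n := by
    have : 4 * R ≤ n := by omega
    exact_mod_cast this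
  have hnpos : (0 : ℝ) < n := lt_of_lt_of_le (Real.exp_pos _) hn1
  set L : ℝ := Real.log n with hL
  have hL8 : 8 * (C1 : ℝ) ≤ L := by
    rw [hL, ← Real.log_exp (8 * C1)]
    exact Real.log_le_log (Real.exp_pos _) hn1
  have hsq : √(n : ℝ) * √(n : ℝ) = n := Real.mul_self_sqrt hnpos.le
  have hsq8 : 8 * (R : ℝ) ≤ √(n : ℝ) := by
    apply Real.le_sqrt_of_sq_le
    exact hn2
  set a : ℝ := √(L / (2 * C1)) with ha
  have haa : a * a = L / (2 * C1) := Real.mul_self_sqrt (by positivity)
  have ha2 : 2 ≤ a := by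
    apply Real.le_sqrt_of_sq_le
    rw [le_div_iff₀ (by positivity)]
    linarith
  set q : ℕ := ⌊a⌋₊ with hq
  have hqa : (q : ℝ) ≤ a := Nat.floor_le (by linarith)
  have hqa' : a < q + 1 := Nat.lt_floor_add_one a
  have hq2 : a / 2 ≤ q := by linarith
  have hqpos : 0 < q := by
    have : (0 : ℝ) < q := by linarith
    exact_mod_cast this
  set M : ℕ := n / (2 * R) with hM
  have hMn : 2 * R * M ≤ n := Nat.mul_div_le n (2 * R)
  have hMr : (n : ℝ) / (2 * R) - 1 < M := by
    have h1 : n < 2 * R * (M + 1) := by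
      have := Nat.lt_mul_div_succ n (by omega : 0 < 2 * R)
      simpa [hM] using this
    have h2 : (n : ℝ) < 2 * R * (M + 1) := by exact_mod_cast h1
    rw [sub_lt_iff_lt_add, div_lt_iff₀ (by positivity)]
    linarith
  have hM2 : 2 * √(n : ℝ) < M := by
    have h1 : 4 * √(n : ℝ) ≤ n / (2 * R) := by
      rw [le_div_iff₀ (by positivity)]
      nlinarith [Real.sqrt_nonneg (n : ℝ)]
    have h2 : 1 ≤ 2 * √(n : ℝ) := by linarith
    linarith
  have hM3 : (n : ℝ) / (4 * R) ≤ M := by
    have h1 : (n : ℝ) / (2 * R) = n / (4 * R) + n / (4 * R) := by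
      field_simp
      ring
    have h2 : 1 ≤ (n : ℝ) / (4 * R) := by
      rw [le_div_iff₀ (by positivity)]
      linarith
    linarith
  -- the exponent
  have hE : q * (2 * R) + q * q * S.card + q * q + q ≤ C1 * (q * q) := by
    have h1 : q * (2 * R) ≤ q * q * (2 * R) := by
      have : q * 1 ≤ q * q := Nat.mul_le_mul_left _ hqpos
      have := Nat.mul_le_mul_right (2 * R) this
      linarith
    have h2 : q ≤ q * q := by
      calc q = q * 1 := (mul_one q).symm
        _ ≤ q * q := Nat.mul_le_mul_left _ hqpos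
    rw [hC1]
    nlinarith
  have hpow : ((2 : ℝ) ^ (q * (2 * R) + q * q * S.card + q * q + q)) ≤ √(n : ℝ) := by
    calc ((2 : ℝ) ^ (q * (2 * R) + q * q * S.card + q * q + q)) ≤ 2 ^ (C1 * (q * q)) :=
          pow_le_pow_right₀ (by norm_num) hE
      _ ≤ Real.exp 1 ^ (C1 * (q * q)) := by
          apply pow_le_pow_left₀ (by norm_num)
          have := Real.add_one_le_exp (1 : ℝ)
          linarith
      _ = Real.exp ((C1 : ℝ) * (q * q)) := by
          rw [← Real.exp_nat_mul]
          push_cast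
          ring_nf
      _ ≤ Real.exp (L / 2) := by
          apply Real.exp_le_exp.2
          have h1 : (q : ℝ) * q ≤ a * a := mul_le_mul hqa hqa (by positivity) (by linarith)
          rw [haa, le_div_iff₀ (by positivity)] at h1
          linarith
      _ = √(n : ℝ) := by
          rw [hL, Real.exp_half, Real.exp_log hnpos]
  have hcond : 2 * 2 ^ (q * (2 * R) + q * q * S.card + q * q + q) < M := by
    have h1 : (2 : ℝ) * 2 ^ (q * (2 * R) + q * q * S.card + q * q + q) < M := by linarith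
    exact_mod_cast h1
  obtain ⟨x, hx⟩ := big_ball (X := X) S hinv hcl hAS hAinv hinf hK hR1 (by omega : N ≤ R) hLG
    (n := n) (T := q * M / 2) (q := q) (M := M) hMn hqpos (Nat.mul_div_le _ 2) hcond
  refine ⟨x, ?_⟩
  have h1 : q * M < 2 * (Bl (S : Set G) n x).ncard := by omega
  have h2 : (q : ℝ) * M < 2 * ((Bl (S : Set G) n x).ncard : ℝ) := by exact_mod_cast h1
  have h3 : a / 2 * (n / (4 * R)) ≤ (q : ℝ) * M :=
    mul_le_mul hq2 hM3 (by positivity) (by positivity)
  have h4 : √L ≤ 2 * C1 * a := by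
    have h5 : √L = √(2 * C1) * a := by
      rw [ha, ← Real.sqrt_mul (by positivity)]
      congr 1
      field_simp
    rw [h5]
    apply mul_le_mul_of_nonneg_right _ (by linarith)
    rw [Real.sqrt_le_left (by positivity)]
    nlinarith
  have h6 : (n : ℝ) * √L ≤ n * (2 * C1 * a) := mul_le_mul_of_nonneg_left h4 hnpos.le
  have h7 : (n : ℝ) * (2 * C1 * a) = 16 * R * C1 * (a / 2 * (n / (4 * R))) := by
    field_simp
    ring
  have h8 : 16 * (R : ℝ) * C1 * (a / 2 * (n / (4 * R))) ≤
      16 * R * C1 * (2 * ((Bl (S : Set G) n x).ncard : ℝ)) :=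
    mul_le_mul_of_nonneg_left (h3.trans h2.le) (by positivity)
  push_cast
  calc (n : ℝ) * √L ≤ n * (2 * C1 * a) := h6
    _ = 16 * R * C1 * (a / 2 * (n / (4 * R))) := h7
    _ ≤ 16 * R * C1 * (2 * ((Bl (S : Set G) n x).ncard : ℝ)) := h8
    _ = 32 * R * C1 * ((Bl (S : Set G) n x).ncard : ℝ) := by ring

/-- **Main theorem.** -/
theorem main_gap (S : Finset G) (hcl : Subgroup.closure (S : Set G) = ⊤) {N : ℕ}
    (hLG : LG (Sym S) N) (A : Finset G) (hinf : (Subgroup.closure (A : Set G) : Set G).Infinite)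
    (hK : Dead (Subgroup.closure (A : Set G))) :
    ∃ C : ℕ, 0 < C ∧ ∀ (X : Type) [MulAction G X], FaithfulSMul G X → ∀ n : ℕ, ∃ x : X,
      (n : ℝ) * √(Real.log n) ≤ (C : ℝ) * ((FB S (C * n) x).ncard : ℝ) := by
  classical
  have hAcl : Subgroup.closure (SymF A : Set G) = Subgroup.closure (A : Set G) := by
    apply le_antisymm
    · rw [Subgroup.closure_le, coe_SymF]
      intro s hs
      rcases hs with h | h
      · exact Subgroup.subset_closure h
      · have := (Subgroup.closure (A : Set G)).inv_mem (Subgroup.subset_closure h)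
        rwa [inv_inv] at this
    · apply Subgroup.closure_mono
      rw [coe_SymF]
      exact fun s hs => Or.inl hs
  obtain ⟨N', hN'⟩ := LG_union hLG (Sym_inv S) (A := SymF A) (SymF_inv A) (fun a _ => by
    rw [Sym_closure hcl]
    exact Subgroup.mem_top a)
  let S' : Finset G := SymF S ∪ SymF A
  have hS' : (S' : Set G) = Sym S ∪ (SymF A : Set G) := by
    rw [Finset.coe_union, coe_SymF]
  have hS'inv : ∀ s ∈ S', s⁻¹ ∈ S' := by
    intro s hs
    rcases Finset.mem_union.1 hs with h | h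
    · exact Finset.mem_union_left _ (SymF_inv S s h)
    · exact Finset.mem_union_right _ (SymF_inv A s h)
  have hS'cl : Subgroup.closure (S' : Set G) = ⊤ := by
    rw [eq_top_iff, ← hcl]
    apply Subgroup.closure_mono
    rw [hS']
    exact fun s hs => Or.inl (Or.inl hs)
  obtain ⟨n1, C2, hasymp⟩ := asymp S' hS'inv hS'cl (A := SymF A) Finset.subset_union_right
    (SymF_inv A) (by rw [hAcl]; exact hinf) (by rw [hAcl]; exact hK) (by rw [hS']; exact hN')
  -- words of `S'` in terms of `S`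
  have hW : ∀ s ∈ S', ∃ u : List G, (∀ t ∈ u, t ∈ Sym S) ∧ u.prod = s := fun s _ =>
    exists_word (Sym_inv S) (Sym_closure hcl) s
  choose! u hu1 hu2 using hW
  obtain ⟨l, hl⟩ : ∃ l, ∀ s ∈ S', (u s).length ≤ l := by
    obtain ⟨l, h⟩ := (S'.finite_toSet.image fun s => (u s).length).bddAbove
    exact ⟨l, fun s hs => h ⟨s, Finset.mem_coe.2 hs, rfl⟩⟩
  have hconv : ∀ w : List G, (∀ s ∈ w, s ∈ (S' : Set G)) → ∃ v : List G,
      (∀ t ∈ v, t ∈ Sym S) ∧ v.prod = w.prod ∧ v.length ≤ l * w.length := by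
    intro w hw
    induction w with
    | nil => exact ⟨[], by simp, by simp, by simp⟩
    | cons s w ih =>
      obtain ⟨v, h1, h2, h3⟩ := ih fun t ht => hw t (List.mem_cons_of_mem _ ht)
      have hs : s ∈ S' := Finset.mem_coe.1 (hw s List.mem_cons_self)
      refine ⟨u s ++ v, append_mem (hu1 s hs) h1, by
        rw [List.prod_append, List.prod_cons, hu2 s hs, h2], ?_⟩
      have := hl s hs
      rw [List.length_append, List.length_cons]
      nlinarith
  set C : ℕ := C2 + l + n1 ^ 2 + 1 with hC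
  refine ⟨C, by omega, ?_⟩
  intro X _ hfaith n
  rcases le_or_gt n1 n with hn | hn
  · obtain ⟨x, hx⟩ := hasymp X hfaith n hn
    refine ⟨x, hx.trans ?_⟩
    have h1 : (Bl (S' : Set G) n x).ncard ≤ (FB S (C * n) x).ncard := by
      apply Set.ncard_le_ncard _ (FB_finite hcl _ x)
      rintro y ⟨w, hw1, hw2, rfl⟩
      obtain ⟨v, hv1, hv2, hv3⟩ := hconv w hw1
      refine ⟨w.prod, ?_, rfl⟩
      have h3 := dist_le_word S hv1 1 w.prod (by rw [one_mul, hv2])
      calc _ ≤ v.length := h3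
        _ ≤ l * w.length := hv3
        _ ≤ l * n := Nat.mul_le_mul_left _ hw2
        _ ≤ C * n := Nat.mul_le_mul_right _ (by omega)
    have h2 : (C2 : ℝ) ≤ C := by
      have : C2 ≤ C := by omega
      exact_mod_cast this
    exact mul_le_mul h2 (by exact_mod_cast h1) (by positivity) (by positivity)
  · -- small `n`
    have hX : Nonempty X := by
      by_contra hX
      rw [not_nonempty_iff] at hX
      have : Subsingleton G := ⟨fun a b => FaithfulSMul.eq_of_smul_eq_smul (α := X)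
        fun x => (hX.false x).elim⟩
      exact hinf (Set.toFinite _)
    obtain ⟨x⟩ := hX
    refine ⟨x, ?_⟩
    have h1 : 1 ≤ (FB S (C * n) x).ncard := by
      rw [Nat.one_le_iff_ne_zero, ← Nat.pos_iff_ne_zero, Set.ncard_pos (FB_finite hcl _ x)]
      exact ⟨x, self_mem_FB S _ x⟩
    have h2 : √(Real.log n) ≤ n := by
      rcases Nat.eq_zero_or_pos n with h0 | h0
      · subst h0
        simp
      have hn1 : (1 : ℝ) ≤ n := by exact_mod_cast h0
      rw [Real.sqrt_le_left (by positivity)]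
      have h3 := Real.log_le_self (by positivity : (0 : ℝ) ≤ n)
      nlinarith
    have h3 : (n : ℝ) * √(Real.log n) ≤ (n1 : ℝ) ^ 2 := by
      have hn' : (n : ℝ) ≤ n1 := by exact_mod_cast hn.le
      calc (n : ℝ) * √(Real.log n) ≤ n * n := mul_le_mul_of_nonneg_left h2 (by positivity)
        _ ≤ n1 * n1 := mul_le_mul hn' hn' (by positivity) (by positivity)
        _ = (n1 : ℝ) ^ 2 := by ring
    have h4 : ((n1 : ℝ)) ^ 2 ≤ C := by
      have : n1 ^ 2 ≤ C := by omega
      exact_mod_cast this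
    have h5 : (1 : ℝ) ≤ ((FB S (C * n) x).ncard : ℝ) := by exact_mod_cast h1
    calc (n : ℝ) * √(Real.log n) ≤ C := h3.trans h4
      _ = C * 1 := (mul_one _).symm
      _ ≤ C * ((FB S (C * n) x).ncard : ℝ) := mul_le_mul_of_nonneg_left h5 (by positivity)

end H84.Sch
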