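import Pool.Agent.H84.Sch.Win

/-!
# Balls of `G`-sets and the growth lower bound
-/

set_option autoImplicit false
set_option linter.unusedVariables false
set_option linter.unusedSectionVars false

namespace H84.Sch

variable {G : Type} [Group G] {X : Type} [MulAction G X]

/-- The ball of radius `n` around `x` with respect to the letters in `S`. -/
def Bl (S : Set G) (n : ℕ) (x : X) : Set X :=
  {y | ∃ w : List G, (∀ s ∈ w, s ∈ S) ∧ w.length ≤ n ∧ w.prod • x = y}

theorem Bl_mono (S : Set G) {m n : ℕ} (h : m ≤ n) (x : X) : Bl S m x ⊆ Bl S n x := by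
  rintro y ⟨w, h1, h2, h3⟩
  exact ⟨w, h1, h2.trans h, h3⟩

theorem Bl_self (S : Set G) (n : ℕ) (x : X) : x ∈ Bl S n x :=
  ⟨[], by simp, by simp, by simp⟩

theorem Bl_smul {S : Set G} {s : G} (hs : s ∈ S) {n : ℕ} {x y : X} (hy : y ∈ Bl S n x) :
    s • y ∈ Bl S (n + 1) x := by
  obtain ⟨w, h1, h2, rfl⟩ := hy
  refine ⟨s :: w, ?_, by simpa using h2, by rw [List.prod_cons, mul_smul]⟩
  intro t ht
  rcases List.mem_cons.1 ht with h | h
  · rw [h]; exact hs
  · exact h1 t h

theorem Bl_zero (S : Set G) (x : X) : Bl S 0 x = {x} := by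
  ext y
  constructor
  · rintro ⟨w, -, h2, rfl⟩
    have : w = [] := List.length_eq_zero_iff.1 (Nat.le_zero.1 h2)
    rw [this]
    simp
  · intro h
    rw [Set.mem_singleton_iff] at h
    rw [h]
    exact Bl_self S 0 x

theorem Bl_finite (S : Finset G) (n : ℕ) (x : X) : (Bl (S : Set G) n x).Finite := by
  induction n with
  | zero => rw [Bl_zero]; exact Set.finite_singleton x
  | succ n ih =>
    have hsub : Bl (S : Set G) (n + 1) x ⊆
        Bl (S : Set G) n x ∪ ⋃ s ∈ S, (fun y => s • y) '' Bl (S : Set G) n x := by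
      rintro y ⟨w, h1, h2, rfl⟩
      cases w with
      | nil => exact Or.inl ⟨[], by simp, by simp, rfl⟩
      | cons s w =>
        right
        rw [Set.mem_iUnion₂]
        refine ⟨s, by simpa using h1 s List.mem_cons_self, w.prod • x,
          ⟨w, fun t ht => h1 t (List.mem_cons_of_mem _ ht), by simpa using h2, rfl⟩, ?_⟩
        rw [List.prod_cons, mul_smul]
    refine (ih.union ?_).subset hsub
    exact S.finite_toSet.biUnion fun s _ => ih.image _

/-- words in a symmetric generating set -/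
theorem exists_word' {S : Set G} (hinv : ∀ s ∈ S, s⁻¹ ∈ S) {h : G}
    (hm : h ∈ Subgroup.closure S) : ∃ w : List G, (∀ s ∈ w, s ∈ S) ∧ w.prod = h := by
  induction hm using Subgroup.closure_induction with
  | mem s hs => exact ⟨[s], by simpa using hs, by simp⟩
  | one => exact ⟨[], by simp, by simp⟩
  | mul a b _ _ ha hb =>
    obtain ⟨u, hu1, hu2⟩ := ha
    obtain ⟨v, hv1, hv2⟩ := hb
    refine ⟨u ++ v, ?_, by rw [List.prod_append, hu2, hv2]⟩
    intro s hs
    rcases List.mem_append.1 hs with h1 | h1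
    · exact hu1 s h1
    · exact hv1 s h1
  | inv a _ ha =>
    obtain ⟨u, hu1, hu2⟩ := ha
    refine ⟨(u.map (fun x => x⁻¹)).reverse, ?_, ?_⟩
    · intro s hs
      rw [List.mem_reverse, List.mem_map] at hs
      obtain ⟨t, ht, rfl⟩ := hs
      exact hinv t (hu1 t ht)
    · rw [← hu2, List.prod_inv_reverse]

theorem exists_word {S : Set G} (hinv : ∀ s ∈ S, s⁻¹ ∈ S) (hcl : Subgroup.closure S = ⊤) (h : G) :
    ∃ w : List G, (∀ s ∈ w, s ∈ S) ∧ w.prod = h :=
  exists_word' hinv (hcl ▸ Subgroup.mem_top h)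

theorem path_word {A : Set G} (w : List G) (hw : ∀ s ∈ w, s ∈ A) (x : X) :
    Path A x (w.prod • x) := by
  induction w with
  | nil =>
    rw [List.prod_nil, one_smul]
    exact Relation.ReflTransGen.refl
  | cons s w ih =>
    rw [List.prod_cons, mul_smul]
    exact (ih fun t ht => hw t (List.mem_cons_of_mem _ ht)).tail
      ⟨s, hw s List.mem_cons_self, rfl⟩

/-- Homomorphisms from a finitely generated group to a finite group. -/
theorem finite_hom (A : Finset G) (P : Type) [Group P] [Finite P] :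
    Finite (Subgroup.closure (A : Set G) →* P) := by
  classical
  let res : (Subgroup.closure (A : Set G) →* P) → (A → P) := fun θ a =>
    θ ⟨a.1, Subgroup.subset_closure (Finset.mem_coe.2 a.2)⟩
  apply Finite.of_injective res
  intro θ θ' hθ
  apply MonoidHom.eq_of_eqOn_dense (Subgroup.closure_closure_coe_preimage (k := (A : Set G)))
  rintro ⟨a, ha⟩ ha'
  have ha'' : a ∈ A := Finset.mem_coe.1 ha'
  exact congrFun hθ ⟨a, ha''⟩

/-- A finitely generated infinite group which acts faithfully has large orbits. -/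
theorem large_orbit (A : Finset G) (hinf : (Subgroup.closure (A : Set G) : Set G).Infinite)
    [FaithfulSMul G X] (T : ℕ) :
    ∃ x : X, ∀ s : Finset X, s.card ≤ T → ∃ k ∈ Subgroup.closure (A : Set G), k • x ∉ s := by
  classical
  by_contra hcon
  push Not at hcon
  choose s hs hsk using hcon
  apply hinf
  set K := Subgroup.closure (A : Set G) with hK
  have hfin : Finite (K →* Equiv.Perm (Fin T)) := finite_hom A _
  -- the homomorphisms
  have hθ : ∀ x : X, ∃ θ : K →* Equiv.Perm (Fin T), ∀ k k' : K, θ k = θ k' →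
      (k : G) • x = (k' : G) • x := by
    intro x
    let O := MulAction.orbit K x
    have hO : ∀ y : O, (y : X) ∈ s x := by
      rintro ⟨y, k, rfl⟩
      exact hsk x k k.2
    have hOfin : Finite O := Finite.of_injective (fun y : O => (⟨y, hO y⟩ : s x)) (by
      intro y y' h
      exact Subtype.ext (congrArg (fun a : s x => (a : X)) h))
    have hOfin' : Fintype O := Fintype.ofFinite O
    have hcard : Fintype.card O ≤ Fintype.card (Fin T) := by
      rw [Fintype.card_fin]
      refine le_trans ?_ (hs x)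
      rw [← Fintype.card_coe]
      exact Fintype.card_le_of_injective (fun y : O => (⟨y, hO y⟩ : s x)) (by
        intro y y' h
        exact Subtype.ext (congrArg (fun a : s x => (a : X)) h))
    obtain ⟨ι⟩ := Function.Embedding.nonempty_of_card_le hcard
    refine ⟨(Equiv.Perm.viaEmbeddingHom ι).comp (MulAction.toPermHom K O), ?_⟩
    intro k k' hkk
    have h1 : MulAction.toPermHom K O k = MulAction.toPermHom K O k' :=
      Equiv.Perm.viaEmbeddingHom_injective ι hkk
    have h2 : k • (⟨x, MulAction.mem_orbit_self x⟩ : O) = k' • (⟨x, MulAction.mem_orbit_self x⟩ : O) :=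
      congrArg (fun e : Equiv.Perm O => e ⟨x, MulAction.mem_orbit_self x⟩) h1
    exact congrArg Subtype.val h2
  choose θ hθ' using hθ
  have hKfin : Finite K := by
    apply Finite.of_injective (fun k : K => fun τ : K →* Equiv.Perm (Fin T) => τ k)
    intro k k' hkk
    apply Subtype.ext
    apply FaithfulSMul.eq_of_smul_eq_smul (α := X)
    intro x
    exact hθ' x k k' (congrFun hkk (θ x))
  exact Set.toFinite _

/-- **Lower bound for balls.** -/
theorem big_ball (S : Finset G) (hinv : ∀ s ∈ S, s⁻¹ ∈ S)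
    (hcl : Subgroup.closure (S : Set G) = ⊤) {A : Finset G} (hAS : A ⊆ S)
    (hAinv : ∀ s ∈ A, s⁻¹ ∈ A) (hinf : (Subgroup.closure (A : Set G) : Set G).Infinite)
    (hK : Dead (Subgroup.closure (A : Set G))) {N R : ℕ}
    (hR : 1 ≤ R) (hN : N ≤ R) (hLG : LG (S : Set G) N) [FaithfulSMul G X]
    {n T q M : ℕ} (hM : 2 * R * M ≤ n) (hq : 0 < q) (h1 : 2 * T ≤ q * M)
    (h2 : 2 * 2 ^ (q * (2 * R) + q * q * S.card + q * q + q) < M) :
    ∃ x : X, T < (Bl (S : Set G) n x).ncard := by
  classical
  by_contra hcon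
  push Not at hcon
  obtain ⟨x, hx⟩ := large_orbit (X := X) A hinf T
  obtain ⟨k, hkK, hk⟩ := hx (Bl_finite S n x).toFinset (by
    rw [← Set.ncard_eq_toFinset_card _ (Bl_finite S n x)]
    exact hcon x)
  rw [Set.Finite.mem_toFinset] at hk
  -- the level function on the orbit
  let O := MulAction.orbit G x
  let lam : O → ℤ := fun y => ((sInf {m : ℕ | (y : X) ∈ Bl (S : Set G) m x} : ℕ) : ℤ)
  have hne : ∀ y : O, {m : ℕ | (y : X) ∈ Bl (S : Set G) m x}.Nonempty := by
    rintro ⟨y, a, ha⟩
    obtain ⟨w, hw1, hw2⟩ := exists_word (S := (S : Set G))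
      (fun s hs => Finset.mem_coe.2 (hinv s (Finset.mem_coe.1 hs))) hcl a
    exact ⟨w.length, w, hw1, le_rfl, by rw [hw2]; exact ha⟩
  have hspec : ∀ y : O, (y : X) ∈ Bl (S : Set G) (sInf {m : ℕ | (y : X) ∈ Bl (S : Set G) m x}) x :=
    fun y => Nat.sInf_mem (hne y)
  have hle : ∀ (y : O) (m : ℕ), lam y ≤ m ↔ (y : X) ∈ Bl (S : Set G) m x := by
    intro y m
    constructor
    · intro h
      have h0 : ((sInf {m : ℕ | (y : X) ∈ Bl (S : Set G) m x} : ℕ) : ℤ) ≤ m := h
      have h' : sInf {m : ℕ | (y : X) ∈ Bl (S : Set G) m x} ≤ m := by exact_mod_cast h0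
      exact Bl_mono _ h' x (hspec y)
    · intro h
      have : sInf {m : ℕ | (y : X) ∈ Bl (S : Set G) m x} ≤ m := Nat.sInf_le h
      show ((sInf {m : ℕ | (y : X) ∈ Bl (S : Set G) m x} : ℕ) : ℤ) ≤ m
      exact_mod_cast this
  have hseteq : ((↑) : O → X) '' {y : O | lam y ≤ n} ⊆ Bl (S : Set G) n x := by
    rintro _ ⟨y, hy, rfl⟩
    exact (hle y n).1 hy
  have hinj : Function.Injective ((↑) : O → X) := Subtype.val_injective
  have hfinO : {y : O | lam y ≤ n}.Finite :=
    Set.Finite.of_finite_image ((Bl_finite S n x).subset hseteq) hinj.injOn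
  let x0 : O := ⟨x, MulAction.mem_orbit_self x⟩
  obtain ⟨w, hw1, hw2⟩ := exists_word' (S := (A : Set G))
    (fun s hs => Finset.mem_coe.2 (hAinv s (Finset.mem_coe.1 hs))) hkK
  refine core (X := O) S hinv hcl hK (Finset.coe_subset.2 hAS) Subgroup.subset_closure hR hN hLG
    lam ?_ (x0 := x0) ?_
    (n := n) ⟨w.prod • x0, path_word w hw1 x0, ?_⟩ hfinO (T := T) (q := q) (M := M) ?_ hM hq h1 h2
  · intro s hs y
    have h3 : (y : X) ∈ Bl (S : Set G) (sInf {m : ℕ | (y : X) ∈ Bl (S : Set G) m x}) x := hspec y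
    have h4 := Bl_smul (Finset.mem_coe.2 hs) h3
    have h5 := (hle (s • y) _).2 h4
    push_cast at h5
    exact h5
  · have h3 : lam x0 ≤ (0 : ℕ) := (hle _ 0).2 (Bl_self _ 0 x)
    have h4 : 0 ≤ lam x0 := Int.natCast_nonneg _
    push_cast at h3
    omega
  · by_contra hnot
    push Not at hnot
    have h3 := (hle _ n).1 hnot
    apply hk
    rw [← hw2]
    exact h3
  · refine le_trans ?_ (hcon x)
    rw [← Set.ncard_image_of_injective _ hinj]
    exact Set.ncard_le_ncard hseteq (Bl_finite S n x)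

end H84.Sch
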