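import Pool.Agent.H84.Sch.Final

/-!
# Infinite subgroups of hyperbolic groups contain infinite finitely generated subgroups
-/

set_option autoImplicit false
set_option linter.unusedVariables false
set_option linter.unusedSectionVars false

namespace H84.Sch

variable {G : Type} [Group G]

theorem dist_left {S : Finset G} (hcl : Subgroup.closure (S : Set G) = ⊤) (g a b : G) :
    (Cay S).dist (g * a) (g * b) = (Cay S).dist a b := by
  have key : ∀ g a b : G, (Cay S).dist (g * a) (g * b) ≤ (Cay S).dist a b := by
    intro g a b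
    obtain ⟨w, h1, h2, h3⟩ := exists_geod hcl a b
    rw [← h2]
    exact dist_le_word S h1 _ _ (by rw [← h3, mul_assoc])
  refine le_antisymm (key g a b) ?_
  have := key g⁻¹ (g * a) (g * b)
  rwa [inv_mul_cancel_left, inv_mul_cancel_left] at this

/-- Finite subgroups of a hyperbolic group have bounded order. -/
theorem card_le_of_finite {S : Finset G} (hcl : Subgroup.closure (S : Set G) = ⊤) {δ : ℕ}
    (h4 : ∀ x y z w : G, (Cay S).dist x y + (Cay S).dist z w ≤
      max ((Cay S).dist x z + (Cay S).dist y w) ((Cay S).dist x w + (Cay S).dist y z) + 2 * δ)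
    (F : Subgroup G) (hF : (F : Set G).Finite) :
    (F : Set G).ncard ≤ (FB S (4 * δ + 1) (1 : G)).ncard := by
  classical
  let Fs : Finset G := hF.toFinset
  have hmem : ∀ x, x ∈ Fs ↔ x ∈ F := fun x => by simp [Fs]
  let rad : G → ℕ := fun c => Fs.sup fun f => (Cay S).dist c f
  -- a centre
  obtain ⟨c, hc⟩ : ∃ c, ∀ c', rad c ≤ rad c' := by
    obtain ⟨c, hc⟩ := exists_minimalFor_of_wellFoundedLT (fun _ : G => True) rad ⟨1, trivial⟩
    exact ⟨c, fun c' => by
      by_contra h
      push Not at h
      exact absurd (hc.2 trivial h.le) (not_le.2 h)⟩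
  have hradF : ∀ f ∈ F, ∀ f' ∈ F, (Cay S).dist (f * c) f' ≤ rad c := by
    intro f hf f' hf'
    have h1 : (Cay S).dist (f * c) f' = (Cay S).dist c (f⁻¹ * f') := by
      have := dist_left hcl f c (f⁻¹ * f')
      rw [mul_inv_cancel_left] at this
      exact this
    rw [h1]
    exact Finset.le_sup (f := fun f => (Cay S).dist c f)
      ((hmem _).2 (F.mul_mem (F.inv_mem hf) hf'))
  have hD : ∀ f ∈ F, (Cay S).dist c (f * c) ≤ 4 * δ + 1 := by
    intro f hf
    by_contra hcon
    push Not at hcon
    obtain ⟨w, hw1, hw2, hw3⟩ := exists_geod hcl c (f * c)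
    set D := (Cay S).dist c (f * c) with hDdef
    set m := c * (w.take (D / 2)).prod with hm
    have hcm : (Cay S).dist c m ≤ D / 2 := by
      refine (dist_le_word S (w := w.take (D / 2)) (fun s hs => hw1 s (List.mem_of_mem_take hs))
        c m rfl).trans ?_
      exact List.length_take_le _ _
    have hmf : (Cay S).dist m (f * c) ≤ D - D / 2 := by
      refine (dist_le_word S (w := w.drop (D / 2)) (fun s hs => hw1 s (List.mem_of_mem_drop hs))
        m (f * c) ?_).trans ?_
      · rw [hm, mul_assoc, ← List.prod_append, List.take_append_drop, hw3]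
      · rw [List.length_drop, hw2]
    have hrm : rad m < rad c := by
      have hpos : 2 * δ < D / 2 := by omega
      have hle : rad m ≤ rad c + 2 * δ - D / 2 := by
        apply Finset.sup_le
        intro f' hf'
        have hf'' := (hmem f').1 hf'
        have h5 := h4 f' m c (f * c)
        have h6 : (Cay S).dist f' c ≤ rad c := by
          rw [SimpleGraph.dist_comm]
          exact Finset.le_sup (f := fun f => (Cay S).dist c f) hf'
        have h7 : (Cay S).dist f' (f * c) ≤ rad c := by
          rw [SimpleGraph.dist_comm]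
          exact hradF f hf f' hf''
        have h8 : (Cay S).dist m c ≤ D / 2 := by
          rw [SimpleGraph.dist_comm]
          exact hcm
        have h9 : (Cay S).dist f' m = (Cay S).dist m f' := SimpleGraph.dist_comm
        rcases le_total ((Cay S).dist f' c + (Cay S).dist m (f * c))
          ((Cay S).dist f' (f * c) + (Cay S).dist m c) with hle | hle
        · rw [max_eq_right hle] at h5
          show (Cay S).dist m f' ≤ _
          omega
        · rw [max_eq_left hle] at h5
          show (Cay S).dist m f' ≤ _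
          omega
      -- `rad c ≥ D / 2 - 2 δ`, otherwise `rad m = 0`
      have h10 : D ≤ 2 * rad c := by
        have h11 := hradF f hf 1 F.one_mem
        have h12 := hradF 1 F.one_mem 1 F.one_mem
        rw [one_mul] at h12
        have h13 : (Cay S).dist c (f * c) ≤ (Cay S).dist c 1 + (Cay S).dist 1 (f * c) := by
          obtain ⟨u, hu1, hu2, hu3⟩ := exists_geod hcl c 1
          obtain ⟨v, hv1, hv2, hv3⟩ := exists_geod hcl 1 (f * c)
          rw [← hu2, ← hv2, ← List.length_append]
          exact dist_le_word S (append_mem hu1 hv1) _ _ (by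
            rw [List.prod_append, ← mul_assoc, hu3, hv3])
        rw [SimpleGraph.dist_comm] at h11
        omega
      omega
    exact absurd (hc m) (not_le.2 hrm)
  -- conjugate into the ball
  refine Set.ncard_le_ncard_of_injOn (fun f => c⁻¹ * f * c) ?_ ?_ (FB_finite hcl _ _)
  · intro f hf
    refine ⟨c⁻¹ * f * c, ?_, by rw [smul_eq_mul, mul_one]⟩
    have h1 := hD f hf
    have h2 := dist_left hcl c⁻¹ c (f * c)
    rw [inv_mul_cancel, ← mul_assoc] at h2
    show (Cay S).dist 1 (c⁻¹ * f * c) ≤ _
    rw [h2]
    exact h1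
  · intro f _ f' _ h
    have h' : c⁻¹ * f * c = c⁻¹ * f' * c := h
    exact mul_left_cancel (mul_right_cancel h')

/-- An infinite subgroup of a hyperbolic group contains an infinite finitely generated one. -/
theorem exists_fg_infinite {S : Finset G} (hcl : Subgroup.closure (S : Set G) = ⊤) {δ : ℕ}
    (h4 : ∀ x y z w : G, (Cay S).dist x y + (Cay S).dist z w ≤
      max ((Cay S).dist x z + (Cay S).dist y w) ((Cay S).dist x w + (Cay S).dist y z) + 2 * δ)
    (K : Subgroup G) (hK : (K : Set G).Infinite) :
    ∃ A : Finset G, (A : Set G) ⊆ K ∧ (Subgroup.closure (A : Set G) : Set G).Infinite := by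
  classical
  by_contra hcon
  push Not at hcon
  have hfin : ∀ A : Finset G, (A : Set G) ⊆ K →
      (Subgroup.closure (A : Set G) : Set G).Finite := fun A hA => by
    simpa using hcon A hA
  set b := (FB S (4 * δ + 1) (1 : G)).ncard with hb
  -- a finitely generated subgroup of maximal order
  have hex : ∃ n, ∃ A : Finset G, (A : Set G) ⊆ K ∧
      (Subgroup.closure (A : Set G) : Set G).ncard = n ∧
      ∀ B : Finset G, (B : Set G) ⊆ K → (Subgroup.closure (B : Set G) : Set G).ncard ≤ n := by
    let P : ℕ → Prop := fun n => ∃ A : Finset G, (A : Set G) ⊆ K ∧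
      (Subgroup.closure (A : Set G) : Set G).ncard = n
    have hP : ∀ n, P n → n ≤ b := by
      rintro n ⟨A, hA, rfl⟩
      exact card_le_of_finite hcl h4 _ (hfin A hA)
    have hP0 : ∃ n, P n := ⟨_, ∅, by simp, rfl⟩
    obtain ⟨n0, hn0⟩ := hP0
    refine ⟨Nat.findGreatest P b, ?_⟩
    obtain ⟨A, hA, hAn⟩ := Nat.findGreatest_spec (hP n0 hn0) hn0
    exact ⟨A, hA, hAn, fun B hB =>
      Nat.le_findGreatest (hP _ ⟨B, hB, rfl⟩) ⟨B, hB, rfl⟩⟩
  obtain ⟨n, A, hA, hAn, hmax⟩ := hex
  apply hK
  apply (hfin A hA).subset
  intro k hk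
  have h1 : (Subgroup.closure (A : Set G) : Set G) ⊆
      (Subgroup.closure ((insert k A : Finset G) : Set G) : Set G) :=
    Subgroup.closure_mono (by
      rw [Finset.coe_insert]
      exact Set.subset_insert _ _)
  have hkA : ((insert k A : Finset G) : Set G) ⊆ K := by
    rw [Finset.coe_insert]
    exact Set.insert_subset hk hA
  have h2 := hmax (insert k A) hkA
  have h3 := Set.eq_of_subset_of_ncard_le h1 (by rw [hAn]; exact h2) (hfin _ hkA)
  rw [h3]
  exact Subgroup.subset_closure (by simp)

end H84.Sch
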