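import Mathlib

/-!
# Closing up a strip of a `G`-set

`X` is a `G`-set with a level function `lam`, `r < r'` are two levels such that the windows
`[r - R, r + R)` and `[r' - R, r' + R)` are isomorphic through `φ`. If all relations of `G` of
length at most `R` present `G`, then `G` acts on `Z × ℤ`, `Z = {x | r ≤ lam x < r'}`, by gluing
copies of the strip.
-/

set_option autoImplicit false
set_option linter.unusedVariables false

namespace H84.Sch

variable {G : Type} [Group G] {X : Type} [MulAction G X]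

/-- Words of length at most `N` which are trivial in `G` present `G` (on the set `S`). -/
def LG (S : Set G) (N : ℕ) : Prop :=
  ∀ (Z : Type) (ρ : G → Equiv.Perm Z),
    (∀ w : List G, (∀ s ∈ w, s ∈ S) → w.length ≤ N → w.prod = 1 → (w.map ρ).prod = 1) →
    ∃ ψ : G →* Equiv.Perm Z, ∀ s ∈ S, ψ s = ρ s

/-- The window data: `φ` is an isomorphism from the window at `r` to the window at `r'`, with
inverse `ψ`. -/
structure Strip (S : Set G) (R : ℤ) (lam : X → ℤ) (r r' : ℤ) (φ ψ : X → X) : Prop where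
  inv_mem : ∀ s ∈ S, s⁻¹ ∈ S
  hR : 1 ≤ R
  hrr : r + R ≤ r' - R
  lip : ∀ s ∈ S, ∀ x, lam (s • x) ≤ lam x + 1
  φ_lev : ∀ x, r - R ≤ lam x → lam x < r + R → lam (φ x) = lam x + (r' - r)
  ψ_lev : ∀ y, r' - R ≤ lam y → lam y < r' + R → lam (ψ y) = lam y - (r' - r)
  ψφ : ∀ x, r - R ≤ lam x → lam x < r + R → ψ (φ x) = x
  φψ : ∀ y, r' - R ≤ lam y → lam y < r' + R → φ (ψ y) = y
  φ_smul : ∀ s ∈ S, ∀ x, r - R ≤ lam x → lam x < r + R → r - R ≤ lam (s • x) →
    lam (s • x) < r + R → φ (s • x) = s • φ x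
  ψ_smul : ∀ s ∈ S, ∀ y, r' - R ≤ lam y → lam y < r' + R → r' - R ≤ lam (s • y) →
    lam (s • y) < r' + R → ψ (s • y) = s • ψ y

variable {S : Set G} {R : ℤ} {lam : X → ℤ} {r r' : ℤ} {φ ψ : X → X}

theorem Strip.lip' (h : Strip S R lam r r' φ ψ) {s : G} (hs : s ∈ S) (x : X) :
    lam x ≤ lam (s • x) + 1 := by
  have := h.lip s⁻¹ (h.inv_mem s hs) (s • x)
  rwa [inv_smul_smul] at this

/-- the developing map -/
noncomputable def dev (lam : X → ℤ) (r r' : ℤ) (φ ψ : X → X) (x : X) : X × ℤ :=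
  if lam x < r then (φ x, -1) else if r' ≤ lam x then (ψ x, 1) else (x, 0)

theorem dev_low {x : X} (h : lam x < r) : dev lam r r' φ ψ x = (φ x, -1) := by
  unfold dev
  rw [if_pos h]

theorem dev_high {x : X} (hrr : r ≤ r') (h : r' ≤ lam x) : dev lam r r' φ ψ x = (ψ x, 1) := by
  unfold dev
  rw [if_neg (by omega), if_pos h]

theorem dev_mid {x : X} (h : r ≤ lam x) (h' : lam x < r') : dev lam r r' φ ψ x = (x, 0) := by
  unfold dev
  rw [if_neg (by omega), if_neg (by omega)]

theorem Strip.dev_mem (h : Strip S R lam r r' φ ψ) {x : X} (h1 : r - R ≤ lam x)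
    (h2 : lam x < r' + R) :
    r ≤ lam (dev lam r r' φ ψ x).1 ∧ lam (dev lam r r' φ ψ x).1 < r' := by
  have hR := h.hR
  have hrr := h.hrr
  rcases lt_or_ge (lam x) r with h3 | h3
  · rw [dev_low h3]
    have := h.φ_lev x h1 (by omega)
    constructor
    · show r ≤ lam (φ x)
      omega
    · show lam (φ x) < r'
      omega
  · rcases lt_or_ge (lam x) r' with h4 | h4
    · rw [dev_mid h3 h4]
      exact ⟨h3, h4⟩
    · rw [dev_high (by omega) h4]
      have := h.ψ_lev x (by omega) h2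
      constructor
      · show r ≤ lam (ψ x)
        omega
      · show lam (ψ x) < r'
        omega

/-- the shift lemma, upper window -/
theorem Strip.dev_shift' (h : Strip S R lam r r' φ ψ) {y : X} (h1 : r' - R ≤ lam y)
    (h2 : lam y < r' + R) :
    dev lam r r' φ ψ y = ((dev lam r r' φ ψ (ψ y)).1, (dev lam r r' φ ψ (ψ y)).2 + 1) := by
  have hR := h.hR
  have hrr := h.hrr
  have h3 := h.ψ_lev y h1 h2
  rcases lt_or_ge (lam y) r' with h4 | h4
  · rw [dev_mid (by omega) h4, dev_low (by omega : lam (ψ y) < r), h.φψ y h1 h2]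
    rfl
  · rw [dev_high (by omega) h4, dev_mid (by omega : r ≤ lam (ψ y)) (by omega)]
    rfl

/-- the shift lemma, lower window -/
theorem Strip.dev_shift (h : Strip S R lam r r' φ ψ) {x : X} (h1 : r - R ≤ lam x)
    (h2 : lam x < r + R) :
    dev lam r r' φ ψ (φ x) = ((dev lam r r' φ ψ x).1, (dev lam r r' φ ψ x).2 + 1) := by
  have h3 := h.φ_lev x h1 h2
  rw [h.dev_shift' (y := φ x) (by omega) (by omega), h.ψφ x h1 h2]

/-- the action of a letter on `X × ℤ` -/
noncomputable def act (lam : X → ℤ) (r r' : ℤ) (φ ψ : X → X) (s : G) (p : X × ℤ) : X × ℤ :=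
  ((dev lam r r' φ ψ (s • p.1)).1, (dev lam r r' φ ψ (s • p.1)).2 + p.2)

theorem act_add (s : G) (x : X) (k m : ℤ) :
    act lam r r' φ ψ s (x, k + m) =
      ((act lam r r' φ ψ s (x, k)).1, (act lam r r' φ ψ s (x, k)).2 + m) := by
  unfold act
  simp only [Prod.mk.injEq, true_and]
  ring

/-- **Path lifting**, one letter. -/
theorem Strip.act_dev (h : Strip S R lam r r' φ ψ) {s : G} (hs : s ∈ S) {x : X}
    (h1 : r - R ≤ lam x) (h2 : lam x < r' + R) (h3 : r - R ≤ lam (s • x))
    (h4 : lam (s • x) < r' + R) :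
    act lam r r' φ ψ s (dev lam r r' φ ψ x) = dev lam r r' φ ψ (s • x) := by
  have hR := h.hR
  have hrr := h.hrr
  have hl := h.lip s hs x
  have hl' := h.lip' hs x
  rcases lt_or_ge (lam x) r with h5 | h5
  · rw [dev_low h5]
    unfold act
    have h6 := h.φ_smul s hs x h1 (by omega) h3 (by omega)
    simp only
    rw [← h6, h.dev_shift h3 (by omega)]
    simp
  · rcases lt_or_ge (lam x) r' with h6 | h6
    · rw [dev_mid h5 h6]
      unfold act
      simp
    · rw [dev_high (by omega) h6]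
      unfold act
      have h7 := h.ψ_smul s hs x (by omega) h2 (by omega) h4
      simp only
      rw [← h7]
      rw [h.dev_shift' (y := s • x) (by omega) h4]

/-- the glued space -/
def Glued (lam : X → ℤ) (r r' : ℤ) : Type := {p : X × ℤ // r ≤ lam p.1 ∧ lam p.1 < r'}

theorem Strip.act_mem (h : Strip S R lam r r' φ ψ) {s : G} (hs : s ∈ S) {p : X × ℤ}
    (hp : r ≤ lam p.1 ∧ lam p.1 < r') :
    r ≤ lam (act lam r r' φ ψ s p).1 ∧ lam (act lam r r' φ ψ s p).1 < r' := by
  have hR := h.hR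
  have hl := h.lip s hs p.1
  have hl' := h.lip' hs p.1
  exact h.dev_mem (by omega) (by omega)

theorem Strip.act_inv (h : Strip S R lam r r' φ ψ) {s : G} (hs : s ∈ S) {p : X × ℤ}
    (hp : r ≤ lam p.1 ∧ lam p.1 < r') :
    act lam r r' φ ψ s⁻¹ (act lam r r' φ ψ s p) = p := by
  have hR := h.hR
  have hl := h.lip s hs p.1
  have hl' := h.lip' hs p.1
  obtain ⟨x, k⟩ := p
  simp only at hp hl hl'
  have h1 : act lam r r' φ ψ s (x, k) =
      ((dev lam r r' φ ψ (s • x)).1, (dev lam r r' φ ψ (s • x)).2 + k) := rfl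
  have h2 : act lam r r' φ ψ s⁻¹ (dev lam r r' φ ψ (s • x)) = dev lam r r' φ ψ (s⁻¹ • s • x) := by
    apply h.act_dev (h.inv_mem s hs) (by omega) (by omega)
    · rw [inv_smul_smul]
      omega
    · rw [inv_smul_smul]
      omega
  rw [inv_smul_smul, dev_mid hp.1 hp.2] at h2
  rw [h1, act_add]
  have h3 : ((dev lam r r' φ ψ (s • x)).1, (dev lam r r' φ ψ (s • x)).2) =
    dev lam r r' φ ψ (s • x) := rfl
  rw [h3, h2]
  simp

open Classical in
/-- the permutation of the glued space given by a letter -/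
noncomputable def rho (h : Strip S R lam r r' φ ψ) (s : G) : Equiv.Perm (Glued lam r r') :=
  if hs : s ∈ S then
    { toFun := fun p => ⟨act lam r r' φ ψ s p.1, h.act_mem hs p.2⟩
      invFun := fun p => ⟨act lam r r' φ ψ s⁻¹ p.1, h.act_mem (h.inv_mem s hs) p.2⟩
      left_inv := fun p => Subtype.ext (h.act_inv hs p.2)
      right_inv := fun p => Subtype.ext (by
        have := h.act_inv (h.inv_mem s hs) p.2
        rwa [inv_inv] at this) }
  else 1

theorem rho_apply (h : Strip S R lam r r' φ ψ) {s : G} (hs : s ∈ S) (p : Glued lam r r') :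
    (rho h s p).1 = act lam r r' φ ψ s p.1 := by
  unfold rho
  rw [dif_pos hs]
  rfl

/-- levels along words -/
theorem Strip.lam_word (h : Strip S R lam r r' φ ψ) (w : List G) (hw : ∀ s ∈ w, s ∈ S) (x : X) :
    lam x - w.length ≤ lam (w.prod • x) ∧ lam (w.prod • x) ≤ lam x + w.length := by
  induction w with
  | nil => simp
  | cons s w ih =>
    have h1 := ih (fun t ht => hw t (List.mem_cons_of_mem _ ht))
    have hs : s ∈ S := hw s List.mem_cons_self
    have h2 := h.lip s hs (w.prod • x)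
    have h3 := h.lip' hs (w.prod • x)
    rw [List.prod_cons, mul_smul, List.length_cons]
    push_cast
    omega

/-- **Path lifting**, words. -/
theorem Strip.rho_word (h : Strip S R lam r r' φ ψ) (w : List G) (hw : ∀ s ∈ w, s ∈ S)
    (hlen : (w.length : ℤ) ≤ R) (p : Glued lam r r') :
    ((w.map (rho h)).prod p).1 = ((dev lam r r' φ ψ (w.prod • p.1.1)).1,
      (dev lam r r' φ ψ (w.prod • p.1.1)).2 + p.1.2) := by
  induction w with
  | nil =>
    simp only [List.map_nil, List.prod_nil, one_smul, Equiv.Perm.coe_one, id_eq]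
    rw [dev_mid p.2.1 p.2.2]
    simp
  | cons s w ih =>
    rw [List.length_cons] at hlen
    push_cast at hlen
    have hs : s ∈ S := hw s List.mem_cons_self
    have hw' : ∀ t ∈ w, t ∈ S := fun t ht => hw t (List.mem_cons_of_mem _ ht)
    have h1 := ih hw' (by omega)
    have h2 := h.lam_word w hw' p.1.1
    have h3 := h.lip s hs (w.prod • p.1.1)
    have h4 := h.lip' hs (w.prod • p.1.1)
    have hp := p.2
    rw [List.map_cons, List.prod_cons, Equiv.Perm.mul_apply, rho_apply h hs, h1, act_add]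
    have h5 : ((dev lam r r' φ ψ (w.prod • p.1.1)).1, (dev lam r r' φ ψ (w.prod • p.1.1)).2) =
      dev lam r r' φ ψ (w.prod • p.1.1) := rfl
    rw [h5, h.act_dev hs (by omega) (by omega) (by omega) (by omega), List.prod_cons, mul_smul]

/-- **Gluing.** -/
theorem Strip.exists_hom (h : Strip S R lam r r' φ ψ) {N : ℕ} (hN : (N : ℤ) ≤ R)
    (hLG : LG S N) :
    ∃ Ψ : G →* Equiv.Perm (Glued lam r r'), ∀ s ∈ S, ∀ p, (Ψ s p).1 = act lam r r' φ ψ s p.1 := by
  obtain ⟨Ψ, hΨ⟩ := hLG (Glued lam r r') (rho h) (by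
    intro w hw hlen hprod
    apply Equiv.ext
    intro p
    apply Subtype.ext
    rw [h.rho_word w hw (by omega) p, hprod, one_smul, dev_mid p.2.1 p.2.2]
    simp)
  refine ⟨Ψ, fun s hs p => ?_⟩
  rw [hΨ s hs, rho_apply h hs]

end H84.Sch
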