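import Pool.Agent.H84.Sch.Present

/-!
# The word metric; hyperbolic groups satisfy the local-to-global principle
-/

set_option autoImplicit false
set_option linter.unusedVariables false
set_option linter.unusedSectionVars false

namespace H84.Sch

variable {G : Type} [Group G]

/-- the Cayley graph -/
abbrev Cay (S : Finset G) : SimpleGraph G := SimpleGraph.fromRel fun g h : G => g⁻¹ * h ∈ S

/-- the letters -/
def Sym (S : Finset G) : Set G := {s | s ∈ S ∨ s⁻¹ ∈ S}

theorem Sym_inv (S : Finset G) : ∀ s ∈ Sym S, s⁻¹ ∈ Sym S := by
  intro s hs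
  rcases hs with h | h
  · exact Or.inr (by rwa [inv_inv])
  · exact Or.inl h

theorem Sym_closure {S : Finset G} (hcl : Subgroup.closure (S : Set G) = ⊤) :
    Subgroup.closure (Sym S) = ⊤ := by
  rw [eq_top_iff, ← hcl]
  exact Subgroup.closure_mono fun s hs => Or.inl hs

theorem word_walk (S : Finset G) (w : List G) (hw : ∀ s ∈ w, s ∈ Sym S) :
    ∀ a b : G, b = a * w.prod → ∃ p : (Cay S).Walk a b, p.length ≤ w.length := by
  induction w with
  | nil =>
    intro a b hb
    rw [List.prod_nil, mul_one] at hb
    subst hb
    exact ⟨SimpleGraph.Walk.nil, by simp⟩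
  | cons s w ih =>
    intro a b hb
    rw [List.prod_cons, ← mul_assoc] at hb
    by_cases hs : s = 1
    · subst hs
      rw [mul_one] at hb
      obtain ⟨p, hp⟩ := ih (fun t ht => hw t (List.mem_cons_of_mem _ ht)) a b hb
      exact ⟨p, by rw [List.length_cons]; omega⟩
    · obtain ⟨p, hp⟩ := ih (fun t ht => hw t (List.mem_cons_of_mem _ ht)) (a * s) b hb
      have hadj : (Cay S).Adj a (a * s) := by
        rw [SimpleGraph.fromRel_adj]
        refine ⟨fun h => hs (by simpa using h.symm), ?_⟩
        rcases hw s List.mem_cons_self with h | h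
        · left; simpa using h
        · right; simpa using h
      exact ⟨SimpleGraph.Walk.cons hadj p, by
        rw [SimpleGraph.Walk.length_cons, List.length_cons]; omega⟩

theorem walk_word (S : Finset G) {a b : G} (p : (Cay S).Walk a b) :
    ∃ w : List G, (∀ s ∈ w, s ∈ Sym S) ∧ w.length = p.length ∧ a * w.prod = b := by
  induction p with
  | nil => exact ⟨[], by simp, by simp, by simp⟩
  | @cons u v _ h p ih =>
    obtain ⟨w, h1, h2, h3⟩ := ih
    rw [SimpleGraph.fromRel_adj] at h
    refine ⟨(u⁻¹ * v) :: w, ?_, by simp [h2], ?_⟩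
    · intro s hs
      rcases List.mem_cons.1 hs with hs | hs
      · rw [hs]
        rcases h.2 with h4 | h4
        · exact Or.inl h4
        · right
          simpa using h4
      · exact h1 s hs
    · rw [List.prod_cons, ← mul_assoc, mul_inv_cancel_left, h3]

theorem dist_le_word (S : Finset G) {w : List G} (hw : ∀ s ∈ w, s ∈ Sym S) (a b : G)
    (hb : b = a * w.prod) : (Cay S).dist a b ≤ w.length := by
  obtain ⟨p, hp⟩ := word_walk S w hw a b hb
  exact (SimpleGraph.dist_le p).trans hp

theorem exists_geod {S : Finset G} (hcl : Subgroup.closure (S : Set G) = ⊤) (a b : G) :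
    ∃ w : List G, (∀ s ∈ w, s ∈ Sym S) ∧ w.length = (Cay S).dist a b ∧ a * w.prod = b := by
  obtain ⟨w, hw, hp⟩ := exists_word (Sym_inv S) (Sym_closure hcl) (a⁻¹ * b)
  obtain ⟨p, -⟩ := word_walk S w hw a b (by rw [hp, mul_inv_cancel_left])
  obtain ⟨q, hq⟩ := p.reachable.exists_walk_length_eq_dist
  obtain ⟨u, h1, h2, h3⟩ := walk_word S q
  exact ⟨u, h1, h2.trans hq, h3⟩

/-- **Hyperbolic groups** (four-point condition) satisfy the local-to-global principle. -/
theorem LG_of_hyp {S : Finset G} (hcl : Subgroup.closure (S : Set G) = ⊤) {δ : ℕ}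
    (h4 : ∀ x y z w : G, (Cay S).dist x y + (Cay S).dist z w ≤
      max ((Cay S).dist x z + (Cay S).dist y w) ((Cay S).dist x w + (Cay S).dist y z) + 2 * δ) :
    LG (Sym S) (4 * δ + 12) := by
  intro Z ρ hρ
  have hinv := Sym_inv S
  have hρi : ∀ s ∈ Sym S, ρ s⁻¹ = (ρ s)⁻¹ := by
    intro s hs
    have h1 := hρ [s⁻¹, s] (by
      intro t ht
      simp only [List.mem_cons, List.not_mem_nil, or_false] at ht
      rcases ht with ht | ht
      · rw [ht]; exact hinv s hs
      · rw [ht]; exact hs) (by simp) (by simp)
    simp only [List.map_cons, List.map_nil, List.prod_cons, List.prod_nil, mul_one] at h1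
    exact eq_inv_of_mul_eq_one_left h1
  apply hom_of_words hinv (Sym_closure hcl)
  suffices hmain : ∀ (L : ℕ) (w : List G), w.length = L → (∀ s ∈ w, s ∈ Sym S) → w.prod = 1 →
      (w.map ρ).prod = 1 from fun w hw hp => hmain _ w rfl hw hp
  intro L
  induction L using Nat.strong_induction_on with
  | _ L ih =>
    intro w hL hw hp
    by_cases hLN : L ≤ 4 * δ + 12
    · exact hρ w hw (by omega) hp
    push Not at hLN
    -- a shortcut
    have hshort : ∃ i m : ℕ, i + m ≤ L ∧ 2 * m ≤ L ∧
        (Cay S).dist (w.take i).prod (w.take (i + m)).prod < m := by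
      by_contra hcon
      push Not at hcon
      set q := L / 4 with hq
      have hsub : ∀ (u : List G), (∀ s ∈ u, s ∈ w) → ∀ s ∈ u, s ∈ Sym S := fun u hu s hs =>
        hw s (hu s hs)
      have hseg : ∀ i m : ℕ, i + m ≤ L →
          (Cay S).dist (w.take i).prod (w.take (i + m)).prod ≤ m := by
        intro i m him
        have h1 : (w.take (i + m)).prod = (w.take i).prod * ((w.drop i).take m).prod := by
          rw [← List.prod_append, ← List.take_add]
        refine (dist_le_word S (w := (w.drop i).take m) (hsub _ fun s hs =>
          List.mem_of_mem_drop (List.mem_of_mem_take hs)) _ _ h1).trans ?_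
        exact List.length_take_le _ _
      have d1 := hcon 0 (2 * q) (by omega) (by omega)
      have d2 := hcon q (2 * q) (by omega) (by omega)
      have e1 := hseg 0 q (by omega)
      have e2 := hseg (2 * q) q (by omega)
      have e3 := hseg q q (by omega)
      have e4 : (Cay S).dist (w.take 0).prod (w.take (3 * q)).prod ≤ L - 3 * q := by
        rw [SimpleGraph.dist_comm]
        have h1 : (w.take 0).prod = (w.take (3 * q)).prod * (w.drop (3 * q)).prod := by
          rw [← List.prod_append, List.take_append_drop, hp]
          simp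
        refine (dist_le_word S (w := w.drop (3 * q)) (hsub _ fun s hs =>
          List.mem_of_mem_drop hs) _ _ h1).trans ?_
        rw [List.length_drop, hL]
      have h5 := h4 (w.take 0).prod (w.take (2 * q)).prod (w.take q).prod (w.take (3 * q)).prod
      have a1 : 0 + 2 * q = 2 * q := by ring
      have a2 : q + 2 * q = 3 * q := by ring
      have a3 : 0 + q = q := by ring
      have a4 : 2 * q + q = 3 * q := by ring
      have a5 : q + q = 2 * q := by ring
      rw [a1] at d1
      rw [a2] at d2
      rw [a3] at e1
      rw [a4] at e2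
      rw [a5] at e3
      rw [SimpleGraph.dist_comm] at e3
      rcases le_total ((Cay S).dist (w.take 0).prod (w.take q).prod +
          (Cay S).dist (w.take (2 * q)).prod (w.take (3 * q)).prod)
        ((Cay S).dist (w.take 0).prod (w.take (3 * q)).prod +
          (Cay S).dist (w.take (2 * q)).prod (w.take q).prod) with hle | hle
      · rw [max_eq_right hle] at h5
        omega
      · rw [max_eq_left hle] at h5
        omega
    obtain ⟨i, m, him, hmL, hd⟩ := hshort
    obtain ⟨u, hu1, hu2, hu3⟩ := exists_geod hcl (w.take i).prod (w.take (i + m)).prod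
    set p := w.take i with hpdef
    set mm := (w.drop i).take m with hmm
    set t := w.drop (i + m) with ht
    have hwe : w = p ++ mm ++ t := by
      rw [hpdef, hmm, ht, ← List.take_add, List.take_append_drop]
    have hpm : ∀ s ∈ p, s ∈ Sym S := fun s hs => hw s (List.mem_of_mem_take hs)
    have hmmm : ∀ s ∈ mm, s ∈ Sym S := fun s hs =>
      hw s (List.mem_of_mem_drop (List.mem_of_mem_take hs))
    have htm : ∀ s ∈ t, s ∈ Sym S := fun s hs => hw s (List.mem_of_mem_drop hs)
    have hlp : p.length = i := by
      rw [hpdef, List.length_take]; omega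
    have hlm : mm.length = m := by
      rw [hmm, List.length_take, List.length_drop]; omega
    have hlt : t.length = L - (i + m) := by
      rw [ht, List.length_drop, hL]
    have hum : u.prod = mm.prod := by
      have h1 : (w.take (i + m)).prod = p.prod * mm.prod := by
        rw [hpdef, hmm, ← List.prod_append, ← List.take_add]
      rw [h1] at hu3
      exact mul_left_cancel hu3
    have h1 := ih (mm ++ iw u).length (by
      rw [List.length_append, iw_length, hlm, hu2]; omega) (mm ++ iw u) rfl
      (append_mem hmmm (iw_mem hinv hu1)) (by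
        rw [List.prod_append, iw_prod, hum, mul_inv_cancel])
    rw [List.map_append, List.prod_append, map_iw hρi hu1] at h1
    have h2 : (mm.map ρ).prod = (u.map ρ).prod := mul_inv_eq_one.1 h1
    have h3 := ih (p ++ u ++ t).length (by
      rw [List.length_append, List.length_append, hlp, hlt, hu2]; omega) (p ++ u ++ t) rfl
      (append_mem (append_mem hpm hu1) htm) (by
        rw [List.prod_append, List.prod_append, hum, ← List.prod_append, ← List.prod_append,
          ← hwe, hp])
    rw [hwe, List.map_append, List.map_append, List.prod_append, List.prod_append, h2]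
    rw [List.map_append, List.map_append, List.prod_append, List.prod_append] at h3
    exact h3

end H84.Sch
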