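import Pool.Agent.H84.Sch.Glue

/-!
# The potential of a dead element

If every homomorphism from a finite-index subgroup of `G` to `ℤ` kills the powers of `g`, then the
orbits of `g` on a glued strip are finite, and there is a `g`-invariant function on the strip
which grows by one from one copy to the next.
-/

set_option autoImplicit false
set_option linter.unusedVariables false
set_option linter.unusedSectionVars false
set_option warn.classDefReducibility false

namespace H84.Sch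

variable {G : Type} [Group G] {X : Type} [MulAction G X]

/-- Every homomorphism from a finite-index subgroup `H` to `ℤ` vanishes on `H ∩ K`. -/
def Dead (K : Subgroup G) : Prop :=
  ∀ H : Subgroup G, H.FiniteIndex → ∀ χ : H →* Multiplicative ℤ, ∀ (k : G) (hk : k ∈ H),
    k ∈ K → χ ⟨k, hk⟩ = 1

variable {S : Set G} {R : ℤ} {lam : X → ℤ} {r r' : ℤ} {φ ψ : X → X}

/-- the translation of the glued space -/
def tau (m : ℤ) (p : Glued lam r r') : Glued lam r r' := ⟨(p.1.1, p.1.2 + m), p.2⟩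

theorem comm_tau (hcl : Subgroup.closure S = ⊤) {Ψ : G →* Equiv.Perm (Glued lam r r')}
    (hΨ : ∀ s ∈ S, ∀ p, (Ψ s p).1 = act lam r r' φ ψ s p.1) (g : G) (m : ℤ)
    (p : Glued lam r r') : Ψ g (tau m p) = tau m (Ψ g p) := by
  have hg : g ∈ Subgroup.closure S := hcl ▸ Subgroup.mem_top g
  induction hg using Subgroup.closure_induction generalizing m p with
  | mem s hs =>
    apply Subtype.ext
    rw [hΨ s hs]
    have h1 : (tau m p).1 = (p.1.1, p.1.2 + m) := rfl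
    have h2 : (tau m (Ψ s p)).1 = ((Ψ s p).1.1, (Ψ s p).1.2 + m) := rfl
    rw [h1, h2, act_add, hΨ s hs]
  | one => simp
  | mul a b _ _ ha hb =>
    rw [map_mul, Equiv.Perm.mul_apply, Equiv.Perm.mul_apply, hb, ha]
  | inv a _ ha =>
    rw [map_inv, Equiv.Perm.inv_eq_iff_eq, ha]
    congr 1
    simp

/-- the strip -/
def Zs (lam : X → ℤ) (r r' : ℤ) : Type := {x : X // r ≤ lam x ∧ lam x < r'}

def toG (z : Zs lam r r') : Glued lam r r' := ⟨(z.1, 0), z.2⟩

theorem eq_tau (p : Glued lam r r') : p = tau p.1.2 (toG ⟨p.1.1, p.2⟩) := by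
  apply Subtype.ext
  show p.1 = (p.1.1, 0 + p.1.2)
  rw [zero_add]

theorem tau_tau (m k : ℤ) (p : Glued lam r r') : tau m (tau k p) = tau (k + m) p := by
  apply Subtype.ext
  show (p.1.1, p.1.2 + k + m) = (p.1.1, p.1.2 + (k + m))
  rw [add_assoc]

/-- the action on the strip -/
def zAct (Ψ : G →* Equiv.Perm (Glued lam r r'))
    (hc : ∀ (g : G) (m : ℤ) (p : Glued lam r r'), Ψ g (tau m p) = tau m (Ψ g p)) :
    MulAction G (Zs lam r r') where
  smul g z := ⟨(Ψ g (toG z)).1.1, (Ψ g (toG z)).2⟩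
  one_smul z := by
    apply Subtype.ext
    show (Ψ 1 (toG z)).1.1 = z.1
    rw [map_one]
    rfl
  mul_smul a b z := by
    apply Subtype.ext
    show (Ψ (a * b) (toG z)).1.1 = (Ψ a (toG ⟨(Ψ b (toG z)).1.1, (Ψ b (toG z)).2⟩)).1.1
    rw [map_mul, Equiv.Perm.mul_apply]
    conv_lhs => rw [eq_tau (Ψ b (toG z)), hc]
    rfl

/-- **Periodicity.** On an orbit of a dead subgroup the point of the strip determines the copy. -/
theorem periodic [Finite (Zs lam r r')] {Ψ : G →* Equiv.Perm (Glued lam r r')}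
    (hc : ∀ (g : G) (m : ℤ) (p : Glued lam r r'), Ψ g (tau m p) = tau m (Ψ g p))
    {K : Subgroup G} (hK : Dead K) (p : Glued lam r r') {a b : G} (ha : a ∈ K) (hb : b ∈ K)
    (hab : (Ψ a p).1.1 = (Ψ b p).1.1) : Ψ a p = Ψ b p := by
  let act := zAct Ψ hc
  let z : Zs lam r r' := ⟨p.1.1, p.2⟩
  have hsm : ∀ (a : G) (z : Zs lam r r'), (a • z).1 = (Ψ a (toG z)).1.1 := fun _ _ => rfl
  let H : Subgroup G := MulAction.stabilizer G z
  have hfi : H.FiniteIndex := by
    have h1 : H.index = (MulAction.orbit G z).ncard := MulAction.index_stabilizer G z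
    refine ⟨?_⟩
    rw [h1]
    have h2 : (MulAction.orbit G z).Finite := Set.toFinite _
    exact ((Set.ncard_pos h2).2 (MulAction.nonempty_orbit z)).ne'
  have hH : ∀ h : G, h ∈ H → (Ψ h (toG z)) = tau (Ψ h (toG z)).1.2 (toG z) := by
    intro h hh
    have h0 : h • z = z := MulAction.mem_stabilizer_iff.1 hh
    have h1 : (h • z).1 = z.1 := by rw [h0]
    rw [hsm] at h1
    apply Subtype.ext
    apply Prod.ext
    · exact h1
    · show (Ψ h (toG z)).1.2 = 0 + (Ψ h (toG z)).1.2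
      rw [zero_add]
  let χ : H →* Multiplicative ℤ :=
    { toFun := fun h => Multiplicative.ofAdd (Ψ h (toG z)).1.2
      map_one' := by
        show Multiplicative.ofAdd (Ψ (1 : G) (toG z)).1.2 = 1
        rw [map_one]
        rfl
      map_mul' := fun a b => by
        have key : (Ψ ((a : G) * b) (toG z)).1.2 =
            (Ψ (a : G) (toG z)).1.2 + (Ψ (b : G) (toG z)).1.2 := by
          rw [map_mul, Equiv.Perm.mul_apply]
          conv_lhs => rw [hH b b.2, hc]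
          rfl
        show Multiplicative.ofAdd (Ψ ((a : G) * b) (toG z)).1.2 = _
        rw [key, ofAdd_add] }
  have hp : p = tau p.1.2 (toG z) := eq_tau p
  have haz : a • z = b • z := by
    apply Subtype.ext
    rw [hsm, hsm]
    rw [hp, hc, hc] at hab
    exact hab
  have hmem : a⁻¹ * b ∈ H := by
    rw [MulAction.mem_stabilizer_iff, mul_smul, ← haz, inv_smul_smul]
  have h1 := hK H hfi χ (a⁻¹ * b) hmem (K.mul_mem (K.inv_mem ha) hb)
  have h2 : (Ψ (a⁻¹ * b) (toG z)).1.2 = 0 := by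
    have : Multiplicative.ofAdd (Ψ (a⁻¹ * b) (toG z)).1.2 = Multiplicative.ofAdd (0 : ℤ) := h1
    exact Multiplicative.ofAdd.injective this
  have h3 := hH _ hmem
  rw [h2] at h3
  have h4 : tau 0 (toG z) = toG z := by
    apply Subtype.ext
    show (z.1, (0 : ℤ) + 0) = (z.1, 0)
    rw [add_zero]
  rw [h4, map_mul, Equiv.Perm.mul_apply, map_inv, Equiv.Perm.inv_eq_iff_eq] at h3
  rw [hp, hc, hc, h3]

/-- the potential on the glued space -/
noncomputable def pot (Ψ : G →* Equiv.Perm (Glued lam r r')) (K : Subgroup G)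
    (p : Glued lam r r') : ℤ :=
  sSup {m : ℤ | ∃ k ∈ K, (Ψ k p).1.2 = m}

theorem pot_bdd [Finite (Zs lam r r')] {Ψ : G →* Equiv.Perm (Glued lam r r')}
    (hc : ∀ (g : G) (m : ℤ) (p : Glued lam r r'), Ψ g (tau m p) = tau m (Ψ g p))
    {K : Subgroup G} (hK : Dead K) (p : Glued lam r r') :
    BddAbove {m : ℤ | ∃ k ∈ K, (Ψ k p).1.2 = m} := by
  classical
  let F : Zs lam r r' → ℤ := fun z =>
    if h : ∃ k ∈ K, (Ψ k p).1.1 = z.1 then (Ψ h.choose p).1.2 else 0
  apply ((Set.toFinite (Set.range F)).subset ?_).bddAbove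
  rintro m ⟨k, hk, rfl⟩
  refine ⟨⟨(Ψ k p).1.1, (Ψ k p).2⟩, ?_⟩
  have h : ∃ k' ∈ K, (Ψ k' p).1.1 = (Ψ k p).1.1 := ⟨k, hk, rfl⟩
  show (if h : ∃ k' ∈ K, (Ψ k' p).1.1 = (Ψ k p).1.1 then (Ψ h.choose p).1.2 else 0) = _
  rw [dif_pos h]
  have h1 := periodic hc hK p h.choose_spec.1 hk h.choose_spec.2
  rw [h1]

theorem pot_inv (Ψ : G →* Equiv.Perm (Glued lam r r')) {K : Subgroup G} {g : G} (hg : g ∈ K)
    (p : Glued lam r r') : pot Ψ K (Ψ g p) = pot Ψ K p := by
  unfold pot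
  congr 1
  ext m
  constructor
  · rintro ⟨k, hk, rfl⟩
    refine ⟨k * g, K.mul_mem hk hg, ?_⟩
    rw [map_mul, Equiv.Perm.mul_apply]
  · rintro ⟨k, hk, rfl⟩
    refine ⟨k * g⁻¹, K.mul_mem hk (K.inv_mem hg), ?_⟩
    rw [← Equiv.Perm.mul_apply, ← map_mul, inv_mul_cancel_right]

theorem pot_tau [Finite (Zs lam r r')] {Ψ : G →* Equiv.Perm (Glued lam r r')}
    (hc : ∀ (g : G) (m : ℤ) (p : Glued lam r r'), Ψ g (tau m p) = tau m (Ψ g p))
    {K : Subgroup G} (hK : Dead K) (m : ℤ) (p : Glued lam r r') :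
    pot Ψ K (tau m p) = pot Ψ K p + m := by
  have hb := pot_bdd hc hK p
  have hne : {m : ℤ | ∃ k ∈ K, (Ψ k p).1.2 = m}.Nonempty := ⟨_, 1, K.one_mem, rfl⟩
  unfold pot
  have h2 : {n : ℤ | ∃ k ∈ K, (Ψ k (tau m p)).1.2 = n} =
      (fun a : ℤ => a + m) '' {m : ℤ | ∃ k ∈ K, (Ψ k p).1.2 = m} := by
    ext n
    constructor
    · rintro ⟨k, hk, rfl⟩
      refine ⟨(Ψ k p).1.2, ⟨k, hk, rfl⟩, ?_⟩
      rw [hc]
      rfl
    · rintro ⟨_, ⟨k, hk, rfl⟩, rfl⟩
      refine ⟨k, hk, ?_⟩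
      rw [hc]
      rfl
  rw [h2]
  symm
  exact (OrderIso.addRight m).map_csSup' hne hb

/-- **Potential.** -/
theorem Strip.exists_potential (h : Strip S R lam r r' φ ψ) {N : ℕ} (hN : (N : ℤ) ≤ R)
    (hLG : LG S N) (hcl : Subgroup.closure S = ⊤) {K : Subgroup G} (hK : Dead K)
    (hfin : {x : X | r - R ≤ lam x ∧ lam x < r' + R}.Finite) :
    ∃ (f : X → ℤ) (c : ℤ),
      (∀ s ∈ S, s ∈ K → ∀ x, r - R ≤ lam x → lam x < r' + R → r - R ≤ lam (s • x) →
        lam (s • x) < r' + R → f (s • x) = f x) ∧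
      (∀ x, r - R ≤ lam x → lam x < r + R → f (φ x) = f x + 1) ∧
      (∀ x, r - R ≤ lam x → lam x < r' + R → f x ≤ c) := by
  have hR := h.hR
  have hrr := h.hrr
  obtain ⟨Ψ, hΨ⟩ := h.exists_hom hN hLG
  have hc := comm_tau (φ := φ) (ψ := ψ) hcl hΨ
  have hfZ : Finite (Zs lam r r') := by
    apply Set.Finite.to_subtype (s := {x : X | r ≤ lam x ∧ lam x < r'})
    exact hfin.subset fun x hx => by
      obtain ⟨h1, h2⟩ := hx
      constructor <;> omega
  classical
  let f : X → ℤ := fun x =>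
    if hx : r ≤ lam (dev lam r r' φ ψ x).1 ∧ lam (dev lam r r' φ ψ x).1 < r' then
      pot Ψ K ⟨dev lam r r' φ ψ x, hx⟩ else 0
  have hf : ∀ x, ∀ hx : r ≤ lam (dev lam r r' φ ψ x).1 ∧ lam (dev lam r r' φ ψ x).1 < r',
      f x = pot Ψ K ⟨dev lam r r' φ ψ x, hx⟩ := fun x hx => dif_pos hx
  obtain ⟨c, hcb⟩ : BddAbove (f '' {x : X | r - R ≤ lam x ∧ lam x < r' + R}) :=
    (hfin.image f).bddAbove
  refine ⟨f, c, ?_, ?_, ?_⟩
  · intro s hs hsK x h1 h2 h3 h4
    rw [hf _ (h.dev_mem h3 h4), hf _ (h.dev_mem h1 h2)]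
    have h5 : (⟨dev lam r r' φ ψ (s • x), h.dev_mem h3 h4⟩ : Glued lam r r') =
        Ψ s ⟨dev lam r r' φ ψ x, h.dev_mem h1 h2⟩ := by
      apply Subtype.ext
      rw [hΨ s hs]
      exact (h.act_dev hs h1 h2 h3 h4).symm
    rw [h5, pot_inv _ hsK]
  · intro x h1 h2
    have h3 := h.φ_lev x h1 h2
    have h4 := h.dev_mem (x := x) h1 (by omega)
    have h5 := h.dev_mem (x := φ x) (by omega) (by omega)
    rw [hf _ h5, hf _ h4]
    have h6 : (⟨dev lam r r' φ ψ (φ x), h5⟩ : Glued lam r r') =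
        tau 1 ⟨dev lam r r' φ ψ x, h4⟩ := by
      apply Subtype.ext
      exact h.dev_shift h1 h2
    rw [h6, pot_tau hc hK]
  · intro x h1 h2
    exact hcb ⟨x, ⟨h1, h2⟩, rfl⟩

end H84.Sch
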