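import Pool.Agent.H84.Sch.Ball

/-!
# Finite presentations: local-to-global principle `LG`
-/

set_option autoImplicit false
set_option linter.unusedVariables false
set_option linter.unusedSectionVars false

namespace H84.Sch

variable {G : Type} [Group G]

/-- the inverse word -/
def iw (w : List G) : List G := (w.map (fun x => x⁻¹)).reverse

theorem iw_prod (w : List G) : (iw w).prod = w.prod⁻¹ := by
  unfold iw
  rw [List.prod_inv_reverse]

theorem iw_length (w : List G) : (iw w).length = w.length := by simp [iw]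

theorem iw_mem {S : Set G} (hinv : ∀ s ∈ S, s⁻¹ ∈ S) {w : List G} (hw : ∀ s ∈ w, s ∈ S) :
    ∀ s ∈ iw w, s ∈ S := by
  intro s hs
  unfold iw at hs
  rw [List.mem_reverse, List.mem_map] at hs
  obtain ⟨t, ht, rfl⟩ := hs
  exact hinv t (hw t ht)

theorem append_mem {S : Set G} {u v : List G} (hu : ∀ s ∈ u, s ∈ S) (hv : ∀ s ∈ v, s ∈ S) :
    ∀ s ∈ u ++ v, s ∈ S := by
  intro s hs
  rcases List.mem_append.1 hs with h | h
  · exact hu s h
  · exact hv s h

theorem map_iw {S : Set G} {Z : Type} {ρ : G → Equiv.Perm Z}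
    (hρ : ∀ s ∈ S, ρ s⁻¹ = (ρ s)⁻¹) {w : List G} (hw : ∀ s ∈ w, s ∈ S) :
    ((iw w).map ρ).prod = ((w.map ρ).prod)⁻¹ := by
  induction w with
  | nil => simp [iw]
  | cons s w ih =>
    have h1 : iw (s :: w) = iw w ++ [s⁻¹] := by
      unfold iw
      simp
    rw [h1, List.map_append, List.prod_append, ih (fun t ht => hw t (List.mem_cons_of_mem _ ht))]
    simp [hρ s (hw s List.mem_cons_self)]

/-- If all trivial words act trivially, the letters extend to a homomorphism. -/
theorem hom_of_words {S : Set G} (hinv : ∀ s ∈ S, s⁻¹ ∈ S) (hcl : Subgroup.closure S = ⊤)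
    {Z : Type} (ρ : G → Equiv.Perm Z)
    (h : ∀ w : List G, (∀ s ∈ w, s ∈ S) → w.prod = 1 → (w.map ρ).prod = 1) :
    ∃ ψ : G →* Equiv.Perm Z, ∀ s ∈ S, ψ s = ρ s := by
  have hρ : ∀ s ∈ S, ρ s⁻¹ = (ρ s)⁻¹ := by
    intro s hs
    have h1 := h [s⁻¹, s] (by
      intro t ht
      simp only [List.mem_cons, List.not_mem_nil, or_false] at ht
      rcases ht with ht | ht
      · rw [ht]; exact hinv s hs
      · rw [ht]; exact hs) (by simp)
    simp only [List.map_cons, List.map_nil, List.prod_cons, List.prod_nil, mul_one] at h1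
    exact eq_inv_of_mul_eq_one_left h1
  choose W hW1 hW2 using exists_word hinv hcl
  have heq : ∀ u v : List G, (∀ s ∈ u, s ∈ S) → (∀ s ∈ v, s ∈ S) → u.prod = v.prod →
      (u.map ρ).prod = (v.map ρ).prod := by
    intro u v hu hv huv
    have h1 := h (u ++ iw v) (append_mem hu (iw_mem hinv hv)) (by
      rw [List.prod_append, iw_prod, huv, mul_inv_cancel])
    rw [List.map_append, List.prod_append, map_iw hρ hv] at h1
    exact mul_inv_eq_one.1 h1
  refine ⟨MonoidHom.mk' (fun x => ((W x).map ρ).prod) ?_, ?_⟩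
  · intro a b
    show ((W (a * b)).map ρ).prod = ((W a).map ρ).prod * ((W b).map ρ).prod
    rw [← List.prod_append, ← List.map_append]
    apply heq _ _ (hW1 _) (append_mem (hW1 a) (hW1 b))
    rw [List.prod_append, hW2, hW2, hW2]
  · intro s hs
    show ((W s).map ρ).prod = ρ s
    rw [heq (W s) [s] (hW1 s) (by simpa using hs) (by rw [hW2]; simp)]
    simp

/-- Adding finitely many generators. -/
theorem LG_union {S : Set G} {N : ℕ} (hLG : LG S N) (hinv : ∀ s ∈ S, s⁻¹ ∈ S)
    {A : Finset G} (hAinv : ∀ a ∈ A, a⁻¹ ∈ A) (hA : ∀ a ∈ A, a ∈ Subgroup.closure S) :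
    ∃ N' : ℕ, LG (S ∪ A) N' := by
  classical
  have hW : ∀ a ∈ A, ∃ u : List G, (∀ s ∈ u, s ∈ S) ∧ u.prod = a := fun a ha =>
    exists_word' hinv (hA a ha)
  choose! u hu1 hu2 using hW
  obtain ⟨L, hL⟩ : ∃ L, ∀ a ∈ A, (u a).length ≤ L := by
    obtain ⟨L, h⟩ := (A.finite_toSet.image fun a => (u a).length).bddAbove
    exact ⟨L, fun a ha => h ⟨a, Finset.mem_coe.2 ha, rfl⟩⟩
  refine ⟨N + L + 2, ?_⟩
  intro Z ρ hρ
  have hmemA : ∀ a ∈ A, a ∈ S ∪ (A : Set G) := fun a ha => Or.inr (Finset.mem_coe.2 ha)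
  obtain ⟨ψ, hψ⟩ := hLG Z ρ (fun w hw hlen hp => hρ w (fun s hs => Or.inl (hw s hs)) (by omega) hp)
  refine ⟨ψ, ?_⟩
  have key : ∀ a ∈ A, ψ a = ρ a := by
    intro a ha
    have h1 := hρ (a⁻¹ :: u a) (by
      intro s hs
      rcases List.mem_cons.1 hs with h | h
      · rw [h]; exact hmemA _ (hAinv a ha)
      · exact Or.inl (hu1 a ha s h)) (by
        rw [List.length_cons]
        have := hL a ha
        omega) (by
      rw [List.prod_cons, hu2 a ha, inv_mul_cancel])
    have h2 := hρ [a, a⁻¹] (by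
      intro s hs
      simp only [List.mem_cons, List.not_mem_nil, or_false] at hs
      rcases hs with h | h
      · rw [h]; exact hmemA a ha
      · rw [h]; exact hmemA _ (hAinv a ha)) (by simp) (by simp)
    simp only [List.map_cons, List.map_nil, List.prod_cons, List.prod_nil, mul_one] at h1 h2
    have h3 : ρ a⁻¹ = (ρ a)⁻¹ := eq_inv_of_mul_eq_one_right h2
    have h4 : ((u a).map ρ).prod = ρ a := by
      rw [h3] at h1
      exact (inv_mul_eq_one.1 h1).symm
    rw [← h4, ← hu2 a ha, map_list_prod, hu2 a ha]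
    congr 1
    apply List.map_congr_left
    intro s hs
    exact hψ s (hu1 a ha s hs)
  intro s hs
  rcases hs with hs | hs
  · exact hψ s hs
  · exact key s (Finset.mem_coe.1 hs)

/-- **Finitely presented groups** satisfy the local-to-global principle. -/
theorem LG_of_fp (S : Finset G) (hinv : ∀ s ∈ S, s⁻¹ ∈ S)
    (hcl : Subgroup.closure (S : Set G) = ⊤) [hfp : Group.IsFinitelyPresented G] :
    ∃ N : ℕ, LG (S : Set G) N := by
  classical
  obtain ⟨n, φ, hφ, T, hT, hker⟩ := hfp.out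
  have hinv' : ∀ s ∈ (S : Set G), s⁻¹ ∈ (S : Set G) := fun s hs =>
    Finset.mem_coe.2 (hinv s (Finset.mem_coe.1 hs))
  choose W hW1 hW2 using exists_word hinv' hcl
  -- every element of the free group is represented by a word in `S`, for all `ρ` simultaneously
  have key : ∀ f : FreeGroup (Fin n), ∃ w : List G, (∀ s ∈ w, s ∈ (S : Set G)) ∧ w.prod = φ f ∧
      ∀ (Z : Type) (ρ : G → Equiv.Perm Z), (∀ s ∈ (S : Set G), ρ s⁻¹ = (ρ s)⁻¹) →
        (w.map ρ).prod = FreeGroup.lift (fun i => ((W (φ (FreeGroup.of i))).map ρ).prod) f := by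
    intro f
    induction f using FreeGroup.induction_on with
    | C1 => exact ⟨[], by simp, by simp, fun Z ρ _ => by simp⟩
    | of i =>
      refine ⟨W (φ (FreeGroup.of i)), hW1 _, hW2 _, fun Z ρ _ => ?_⟩
      rw [FreeGroup.lift_apply_of]
    | inv_of i ih =>
      obtain ⟨w, h1, h2, h3⟩ := ih
      refine ⟨iw w, iw_mem hinv' h1, by rw [iw_prod, h2, map_inv], fun Z ρ hρ => ?_⟩
      rw [map_iw hρ h1, h3 Z ρ hρ, map_inv]
    | mul a b iha ihb =>
      obtain ⟨u, h1, h2, h3⟩ := iha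
      obtain ⟨v, h4, h5, h6⟩ := ihb
      refine ⟨u ++ v, append_mem h1 h4, by rw [List.prod_append, h2, h5, map_mul],
        fun Z ρ hρ => ?_⟩
      rw [List.map_append, List.prod_append, h3 Z ρ hρ, h6 Z ρ hρ, map_mul]
  choose V hV1 hV2 hV3 using key
  choose F hF using hφ
  -- the bound
  obtain ⟨N1, hN1⟩ : ∃ N1, ∀ t ∈ T, (V t).length ≤ N1 := by
    obtain ⟨N1, h⟩ := (hT.image fun t => (V t).length).bddAbove
    exact ⟨N1, fun t ht => h ⟨t, ht, rfl⟩⟩
  obtain ⟨N2, hN2⟩ : ∃ N2, ∀ s ∈ S, (V (F s)).length ≤ N2 := by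
    obtain ⟨N2, h⟩ := (S.finite_toSet.image fun s => (V (F s)).length).bddAbove
    exact ⟨N2, fun s hs => h ⟨s, Finset.mem_coe.2 hs, rfl⟩⟩
  refine ⟨N1 + N2 + 2, ?_⟩
  intro Z ρ hρ
  have hρi : ∀ s ∈ (S : Set G), ρ s⁻¹ = (ρ s)⁻¹ := by
    intro s hs
    have h1 := hρ [s⁻¹, s] (by
      intro t ht
      simp only [List.mem_cons, List.not_mem_nil, or_false] at ht
      rcases ht with ht | ht
      · rw [ht]; exact hinv' s hs
      · rw [ht]; exact hs) (by simp) (by simp)
    simp only [List.map_cons, List.map_nil, List.prod_cons, List.prod_nil, mul_one] at h1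
    exact eq_inv_of_mul_eq_one_left h1
  set Ψ : FreeGroup (Fin n) →* Equiv.Perm Z :=
    FreeGroup.lift (fun i => ((W (φ (FreeGroup.of i))).map ρ).prod) with hΨ
  have hkerle : φ.ker ≤ Ψ.ker := by
    rw [← hker]
    apply Subgroup.normalClosure_le_normal
    intro t ht
    have h1 : (V t).prod = 1 := by
      rw [hV2]
      have : t ∈ φ.ker := hker ▸ Subgroup.subset_normalClosure ht
      exact this
    have h2 := hρ (V t) (hV1 t) (by have := hN1 t ht; omega) h1
    rw [hV3 t Z ρ hρi] at h2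
    exact h2
  have hφs : Function.Surjective φ := fun x => ⟨F x, hF x⟩
  let ψ : G →* Equiv.Perm Z := MonoidHom.liftOfSurjective φ hφs ⟨Ψ, hkerle⟩
  have hψ : ∀ f, ψ (φ f) = Ψ f := fun f => MonoidHom.liftOfRightInverse_comp_apply _ _ _ ⟨Ψ, hkerle⟩ f
  refine ⟨ψ, ?_⟩
  intro s hs
  rw [← hF s, hψ, hF s]
  have h1 := hρ (s⁻¹ :: V (F s)) (by
    intro t ht
    rcases List.mem_cons.1 ht with h | h
    · rw [h]; exact hinv' s hs
    · exact hV1 _ t h) (by
      rw [List.length_cons]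
      have := hN2 s (Finset.mem_coe.1 hs)
      omega) (by rw [List.prod_cons, hV2, hF, inv_mul_cancel])
  rw [List.map_cons, List.prod_cons, hV3 _ Z ρ hρi, hρi s hs] at h1
  exact (inv_mul_eq_one.1 h1).symm

end H84.Sch
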