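import Pool.Agent.H84.Sch.Pot

/-!
# A dead subgroup cannot travel through a strip with equal connection data
-/

set_option autoImplicit false
set_option linter.unusedVariables false
set_option linter.unusedSectionVars false

namespace H84.Sch

variable {G : Type} [Group G] {X : Type} [MulAction G X]

/-- `x` and `y` are connected by a path with steps in `A` inside `{lam < r}`. -/
def Conn (A : Set G) (lam : X → ℤ) (r : ℤ) : X → X → Prop :=
  Relation.ReflTransGen fun u v => lam u < r ∧ lam v < r ∧ ∃ s ∈ A, v = s • u

/-- `x` and `y` are connected by a path with steps in `A`. -/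
def Path (A : Set G) : X → X → Prop :=
  Relation.ReflTransGen fun u v => ∃ s ∈ A, v = s • u

variable {S : Set G} {R : ℤ} {lam : X → ℤ} {r r' : ℤ} {φ ψ : X → X}

section

variable (h : Strip S R lam r r' φ ψ) {A : Set G} (hA : A ⊆ S)
  (hex : ∀ x y, r - R ≤ lam x → lam x < r → r - R ≤ lam y → lam y < r → Conn A lam r x y →
    Conn A lam r' (φ x) (φ y))
  {f : X → ℤ} {c : ℤ}
  (hf1 : ∀ s ∈ A, ∀ x, r - R ≤ lam x → lam x < r' + R → r - R ≤ lam (s • x) →
    lam (s • x) < r' + R → f (s • x) = f x)
  (hf2 : ∀ x, r - R ≤ lam x → lam x < r + R → f (φ x) = f x + 1)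
  (hf3 : ∀ x, r - R ≤ lam x → lam x < r' + R → f x ≤ c)

include h hA hex hf1 hf2 hf3

theorem claimA (m : ℕ) : ∀ (a b : X), Conn A lam r' a b → r ≤ lam a → lam a < r' →
    r ≤ lam b → lam b < r' → max (f a + m) c = max (f b + m) c := by
  have hR := h.hR
  have hrr := h.hrr
  induction m with
  | zero =>
    intro a b _ h1 h2 h3 h4
    have h5 := hf3 a (by omega) (by omega)
    have h7 := hf3 b (by omega) (by omega)
    simp only [Nat.cast_zero, add_zero]
    rw [max_eq_right h5, max_eq_right h7]
  | succ m ihm =>
    intro a b hab h1 h2 h3 h4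
    have key : (r ≤ lam b → max (f b + ((m : ℤ) + 1)) c = max (f a + ((m : ℤ) + 1)) c) ∧
        (lam b < r → ∃ a', r - R ≤ lam a' ∧ lam a' < r ∧ Conn A lam r a' b ∧
          max (f a' + ((m : ℤ) + 1)) c = max (f a + ((m : ℤ) + 1)) c) := by
      clear h3 h4
      induction hab with
      | refl => exact ⟨fun _ => rfl, fun h5 => by omega⟩
      | @tail x y hax hxy ih =>
        obtain ⟨hx, hy, s, hs, rfl⟩ := hxy
        have hl := h.lip s (hA hs) x
        have hl' := h.lip' (hA hs) x
        rcases lt_or_ge (lam x) r with h5 | h5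
        · obtain ⟨a', ha1, ha2, ha3, ha4⟩ := ih.2 h5
          refine ⟨fun h6 => ?_, fun h6 => ?_⟩
          · have h7 := hex a' x ha1 ha2 (by omega) h5 ha3
            have h8 := h.φ_lev a' ha1 (by omega)
            have h9 := h.φ_lev x (by omega) (by omega)
            have h10 := ihm (φ a') (φ x) h7 (by omega) (by omega) (by omega) (by omega)
            rw [hf2 _ ha1 (by omega), hf2 _ (by omega) (by omega)] at h10
            have e1 : f a' + 1 + (m : ℤ) = f a' + (m + 1) := by ring
            have e2 : f x + 1 + (m : ℤ) = f x + (m + 1) := by ring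
            rw [e1, e2] at h10
            rw [hf1 s hs x (by omega) (by omega) (by omega) (by omega), ← h10, ha4]
          · exact ⟨a', ha1, ha2, ha3.tail ⟨h5, h6, s, hs, rfl⟩, ha4⟩
        · have h6 := ih.1 h5
          have h7 := hf1 s hs x (by omega) (by omega) (by omega) (by omega)
          refine ⟨fun _ => by rw [h7, h6], fun h8 => ?_⟩
          exact ⟨s • x, by omega, h8, Relation.ReflTransGen.refl, by rw [h7, h6]⟩
    have h5 := key.1 h3
    push_cast
    exact h5.symm

theorem claimB {x0 : X} (hx0 : lam x0 < r)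
    (hex0 : ∀ y, r - R ≤ lam y → lam y < r → Conn A lam r x0 y → Conn A lam r' x0 (φ y))
    (m : ℕ) : ∀ b : X, Conn A lam r' x0 b → r ≤ lam b → lam b < r' → f b + m ≤ c := by
  have hR := h.hR
  have hrr := h.hrr
  induction m with
  | zero =>
    intro b _ h3 h4
    have h7 := hf3 b (by omega) (by omega)
    simpa using h7
  | succ m ihm =>
    intro b hb h3 h4
    have key : (r ≤ lam b → f b + ((m : ℤ) + 1) ≤ c) ∧
        (lam b < r → Conn A lam r x0 b ∨ ∃ a', r - R ≤ lam a' ∧ lam a' < r ∧
          Conn A lam r a' b ∧ f a' + ((m : ℤ) + 1) ≤ c) := by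
      clear h3 h4
      induction hb with
      | refl => exact ⟨fun h5 => by omega, fun _ => Or.inl Relation.ReflTransGen.refl⟩
      | @tail x y hax hxy ih =>
        obtain ⟨hx, hy, s, hs, rfl⟩ := hxy
        have hl := h.lip s (hA hs) x
        have hl' := h.lip' (hA hs) x
        rcases lt_or_ge (lam x) r with h5 | h5
        · refine ⟨fun h6 => ?_, fun h6 => ?_⟩
          · have h9 := h.φ_lev x (by omega) (by omega)
            have h11 := hf1 s hs x (by omega) (by omega) (by omega) (by omega)
            have h12 := hf2 x (by omega) (by omega)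
            rcases ih.2 h5 with h7 | ⟨a', ha1, ha2, ha3, ha4⟩
            · have h8 := hex0 x (by omega) h5 h7
              have h10 := ihm (φ x) h8 (by omega) (by omega)
              omega
            · have h7 := hex a' x ha1 ha2 (by omega) h5 ha3
              have h8 := h.φ_lev a' ha1 (by omega)
              have h10 := claimA h hA hex hf1 hf2 hf3 m (φ a') (φ x) h7 (by omega) (by omega)
                (by omega) (by omega)
              have h13 := hf2 a' ha1 (by omega)
              rw [max_eq_right (by omega : f (φ a') + (m : ℤ) ≤ c)] at h10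
              have h14 := le_max_left (f (φ x) + (m : ℤ)) c
              omega
          · rcases ih.2 h5 with h7 | ⟨a', ha1, ha2, ha3, ha4⟩
            · exact Or.inl (h7.tail ⟨h5, h6, s, hs, rfl⟩)
            · exact Or.inr ⟨a', ha1, ha2, ha3.tail ⟨h5, h6, s, hs, rfl⟩, ha4⟩
        · have h6 := ih.1 h5
          have h7 := hf1 s hs x (by omega) (by omega) (by omega) (by omega)
          refine ⟨fun _ => by omega, fun h8 => Or.inr ?_⟩
          exact ⟨s • x, by omega, h8, Relation.ReflTransGen.refl, by omega⟩
    have h5 := key.1 h3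
    push_cast
    exact h5

/-- **Contradiction.** -/
theorem no_travel {x0 : X} (hx0 : lam x0 < r)
    (hex0 : ∀ y, r - R ≤ lam y → lam y < r → Conn A lam r x0 y → Conn A lam r' x0 (φ y))
    (hreach : ∃ y, Path A x0 y ∧ r ≤ lam y) : False := by
  have hR := h.hR
  have hrr := h.hrr
  obtain ⟨y, hpath, hy⟩ := hreach
  obtain ⟨b, hb, hbr⟩ : ∃ b, Conn A lam r' x0 b ∧ lam b = r := by
    have key : (∃ b, Conn A lam r' x0 b ∧ lam b = r) ∨ (lam y < r ∧ Conn A lam r' x0 y) := by
      clear hy
      induction hpath with
      | refl => exact Or.inr ⟨hx0, Relation.ReflTransGen.refl⟩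
      | @tail x y _ hxy ih =>
        rcases ih with h1 | ⟨h1, h2⟩
        · exact Or.inl h1
        · obtain ⟨s, hs, rfl⟩ := hxy
          have hl := h.lip s (hA hs) x
          have h3 : Conn A lam r' x0 (s • x) := h2.tail ⟨by omega, by omega, s, hs, rfl⟩
          rcases lt_or_ge (lam (s • x)) r with h4 | h4
          · exact Or.inr ⟨h4, h3⟩
          · exact Or.inl ⟨s • x, h3, by omega⟩
    rcases key with h1 | h1
    · exact h1
    · omega
  have h1 := claimB h hA hex hf1 hf2 hf3 hx0 hex0 (c - f b + 1).toNat b hb (by omega) (by omega)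
  have h2 := hf3 b (by omega) (by omega)
  rw [Int.toNat_of_nonneg (by omega)] at h1
  omega

end

end H84.Sch
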