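import Pool.Agent.H84.Sch.Sim

/-!
# Windows and the pigeonhole principle
-/

set_option autoImplicit false
set_option linter.unusedVariables false
set_option linter.unusedSectionVars false

namespace H84.Sch

open Finset

variable {G : Type} [Group G] {X : Type} [MulAction G X]

theorem enum {q : ℕ} (hq : 0 < q) (s : Finset X) (h : s.card ≤ q) :
    ∃ e : X → Fin q, Set.InjOn e (s : Set X) := by
  classical
  have h1 : Fintype.card s ≤ Fintype.card (Fin q) := by
    rw [Fintype.card_coe, Fintype.card_fin]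
    exact h
  obtain ⟨f⟩ := Function.Embedding.nonempty_of_card_le h1
  refine ⟨fun x => if hx : x ∈ s then f ⟨x, hx⟩ else ⟨0, hq⟩, ?_⟩
  intro x hx y hy hxy
  have hx' : x ∈ s := hx
  have hy' : y ∈ s := hy
  simp only [dif_pos hx', dif_pos hy'] at hxy
  exact congrArg Subtype.val (f.injective hxy)

/-- the window -/
def Vw (lam : X → ℤ) (R i : ℕ) : Set X := {x | (2 * R * i : ℤ) ≤ lam x ∧ lam x < 2 * R * i + 2 * R}

/-- the centre of the window -/
def ctr (R i : ℕ) : ℤ := 2 * R * i + R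

/-- the code of a window -/
def Code (S : Finset G) (q R : ℕ) : Type :=
  Set (Fin q × Fin (2 * R)) × (S → Set (Fin q × Fin q)) × Set (Fin q × Fin q) × Set (Fin q)

noncomputable instance (S : Finset G) (q R : ℕ) : Fintype (Code S q R) := by
  classical
  unfold Code
  infer_instance

theorem card_code (S : Finset G) (q R : ℕ) :
    Fintype.card (Code S q R) = 2 ^ (q * (2 * R) + q * q * S.card + q * q + q) := by
  classical
  have h : Fintype.card (Code S q R) =
      Fintype.card (Set (Fin q × Fin (2 * R)) × (S → Set (Fin q × Fin q)) ×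
        Set (Fin q × Fin q) × Set (Fin q)) := Fintype.card_congr (Equiv.refl _)
  rw [h]
  simp only [Fintype.card_prod, Fintype.card_set, Fintype.card_fin, Fintype.card_fun,
    Fintype.card_coe]
  rw [← pow_mul, ← pow_add, ← pow_add, ← pow_add]
  congr 1
  ring

/-- the code of the window `i` with enumeration `e` -/
def code (S : Finset G) (A : Set G) (lam : X → ℤ) (x0 : X) (q R i : ℕ) (e : X → Fin q) :
    Code S q R :=
  ({p | ∃ x ∈ Vw lam R i, e x = p.1 ∧ lam x = 2 * R * i + ((p.2 : ℕ) : ℤ)},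
   fun s => {p | ∃ x ∈ Vw lam R i, ∃ y ∈ Vw lam R i, e x = p.1 ∧ e y = p.2 ∧ (s : G) • x = y},
   {p | ∃ x ∈ Vw lam R i, ∃ y ∈ Vw lam R i, e x = p.1 ∧ e y = p.2 ∧ lam x < ctr R i ∧
      lam y < ctr R i ∧ Conn A lam (ctr R i) x y},
   {p | ∃ y ∈ Vw lam R i, e y = p ∧ lam y < ctr R i ∧ Conn A lam (ctr R i) x0 y})

/-- Equal codes give maps between the windows. -/
theorem map_of_code {S : Finset G} {A : Set G} {lam : X → ℤ} {x0 : X} {q R i j : ℕ}
    {ei ej : X → Fin q} (hij : code S A lam x0 q R i ei = code S A lam x0 q R j ej)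
    (hj : Set.InjOn ej (Vw lam R j)) :
    ∃ φ : X → X, (∀ x ∈ Vw lam R i, φ x ∈ Vw lam R j ∧ ej (φ x) = ei x ∧
        lam (φ x) = lam x + (ctr R j - ctr R i)) ∧
      (∀ s ∈ S, ∀ x ∈ Vw lam R i, s • x ∈ Vw lam R i → φ (s • x) = s • φ x) ∧
      (∀ x ∈ Vw lam R i, ∀ y ∈ Vw lam R i, lam x < ctr R i → lam y < ctr R i →
        Conn A lam (ctr R i) x y → Conn A lam (ctr R j) (φ x) (φ y)) ∧
      (∀ y ∈ Vw lam R i, lam y < ctr R i → Conn A lam (ctr R i) x0 y →
        Conn A lam (ctr R j) x0 (φ y)) := by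
  classical
  have c1 := congrArg Prod.fst hij
  have c2 := congrArg (fun c : Code S q R => c.2.1) hij
  have c3 := congrArg (fun c : Code S q R => c.2.2.1) hij
  have c4 := congrArg (fun c : Code S q R => c.2.2.2) hij
  simp only [code] at c1 c2 c3 c4
  have hex : ∀ x ∈ Vw lam R i, ∃ x' ∈ Vw lam R j, ej x' = ei x ∧
      lam x' = lam x + (ctr R j - ctr R i) := by
    intro x hx
    have hxx := hx
    obtain ⟨hx1, hx2⟩ := hxx
    have hlt : (lam x - 2 * R * i).toNat < 2 * R := by omega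
    have hmem : (ei x, (⟨(lam x - 2 * R * i).toNat, hlt⟩ : Fin (2 * R))) ∈
        {p : Fin q × Fin (2 * R) | ∃ x ∈ Vw lam R i, ei x = p.1 ∧
          lam x = 2 * R * i + ((p.2 : ℕ) : ℤ)} := by
      refine ⟨x, hx, rfl, ?_⟩
      show lam x = 2 * R * i + (((lam x - 2 * R * i).toNat : ℕ) : ℤ)
      rw [Int.toNat_of_nonneg (by omega)]
      ring
    rw [c1] at hmem
    obtain ⟨x', hx', he, hl⟩ := hmem
    refine ⟨x', hx', he, ?_⟩
    have hl' : lam x' = 2 * R * j + (((lam x - 2 * R * i).toNat : ℕ) : ℤ) := hl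
    rw [Int.toNat_of_nonneg (by omega)] at hl'
    rw [hl']
    unfold ctr
    ring
  choose! φ hφ1 hφ2 hφ3 using hex
  refine ⟨φ, fun x hx => ⟨hφ1 x hx, hφ2 x hx, hφ3 x hx⟩, ?_, ?_, ?_⟩
  · intro s hs x hx hsx
    have hmem : (ei x, ei (s • x)) ∈ {p : Fin q × Fin q | ∃ x ∈ Vw lam R i, ∃ y ∈ Vw lam R i,
        ei x = p.1 ∧ ei y = p.2 ∧ (((⟨s, hs⟩ : S) : G)) • x = y} :=
      ⟨x, hx, s • x, hsx, rfl, rfl, rfl⟩
    have c2' := congrFun c2 ⟨s, hs⟩
    rw [c2'] at hmem
    obtain ⟨a, ha, b, hb, he1, he2, hab⟩ := hmem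
    have h1 : a = φ x := hj ha (hφ1 x hx) (he1.trans (hφ2 x hx).symm)
    have h2 : b = φ (s • x) := hj hb (hφ1 _ hsx) (he2.trans (hφ2 _ hsx).symm)
    rw [← h1, ← h2]
    exact hab.symm
  · intro x hx y hy hlx hly hE
    have hmem : (ei x, ei y) ∈ {p : Fin q × Fin q | ∃ x ∈ Vw lam R i, ∃ y ∈ Vw lam R i,
        ei x = p.1 ∧ ei y = p.2 ∧ lam x < ctr R i ∧ lam y < ctr R i ∧
          Conn A lam (ctr R i) x y} := ⟨x, hx, y, hy, rfl, rfl, hlx, hly, hE⟩
    rw [c3] at hmem
    obtain ⟨a, ha, b, hb, he1, he2, -, -, hab⟩ := hmem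
    have h1 : a = φ x := hj ha (hφ1 x hx) (he1.trans (hφ2 x hx).symm)
    have h2 : b = φ y := hj hb (hφ1 _ hy) (he2.trans (hφ2 _ hy).symm)
    rw [← h1, ← h2]
    exact hab
  · intro y hy hly hE
    have hmem : ei y ∈ {p : Fin q | ∃ y ∈ Vw lam R i, ei y = p ∧ lam y < ctr R i ∧
        Conn A lam (ctr R i) x0 y} := ⟨y, hy, rfl, hly, hE⟩
    rw [c4] at hmem
    obtain ⟨b, hb, he2, -, hab⟩ := hmem
    have h2 : b = φ y := hj hb (hφ1 _ hy) (he2.trans (hφ2 _ hy).symm)
    rw [← h2]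
    exact hab

/-- **Core lemma.** -/
theorem core (S : Finset G) (hinv : ∀ s ∈ S, s⁻¹ ∈ S)
    (hcl : Subgroup.closure (S : Set G) = ⊤) {K : Subgroup G} (hK : Dead K) {A : Set G}
    (hAS : A ⊆ S) (hAK : A ⊆ K) {N R : ℕ}
    (hR : 1 ≤ R) (hN : N ≤ R) (hLG : LG (S : Set G) N) (lam : X → ℤ)
    (hlip : ∀ s ∈ S, ∀ x, lam (s • x) ≤ lam x + 1) {x0 : X} (hx0 : lam x0 = 0) {n : ℕ}
    (hreach : ∃ y : X, Path A x0 y ∧ (n : ℤ) < lam y)
    (hfin : {x : X | lam x ≤ n}.Finite) {T q M : ℕ} (hT : {x : X | lam x ≤ n}.ncard ≤ T)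
    (hM : 2 * R * M ≤ n) (hq : 0 < q) (h1 : 2 * T ≤ q * M)
    (h2 : 2 * 2 ^ (q * (2 * R) + q * q * S.card + q * q + q) < M) : False := by
  classical
  -- the windows as finsets
  let B : Finset X := hfin.toFinset
  have hBT : B.card ≤ T := by
    rw [Set.ncard_eq_toFinset_card _ hfin] at hT
    exact hT
  let V : ℕ → Finset X := fun i => B.filter fun x => x ∈ Vw lam R i
  have hVmem : ∀ i < M, ∀ x, x ∈ V i ↔ x ∈ Vw lam R i := by
    intro i hi x
    simp only [V, mem_filter]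
    constructor
    · exact fun h => h.2
    · intro h
      refine ⟨?_, h⟩
      simp only [B, Set.Finite.mem_toFinset, Set.mem_ofPred_eq]
      have h3 : 2 * R * (i + 1) ≤ 2 * R * M := Nat.mul_le_mul_left _ hi
      have h4 : ((2 * R * (i + 1) : ℕ) : ℤ) ≤ (n : ℤ) := by exact_mod_cast h3.trans hM
      push_cast at h4
      have h5 := h.2
      linarith
  have hdisj : ∀ i ∈ range M, ∀ j ∈ range M, i ≠ j → Disjoint (V i) (V j) := by
    intro i _ j _ hij
    rw [disjoint_left]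
    intro x hx hx'
    simp only [V, mem_filter] at hx hx'
    obtain ⟨-, a1, a2⟩ := hx
    obtain ⟨-, b1, b2⟩ := hx'
    apply hij
    have hRz : (0 : ℤ) < 2 * R := by positivity
    rcases lt_trichotomy i j with h | h | h
    · exfalso
      have : (i : ℤ) + 1 ≤ j := by exact_mod_cast h
      have := mul_le_mul_of_nonneg_left this hRz.le
      nlinarith
    · exact h
    · exfalso
      have : (j : ℤ) + 1 ≤ i := by exact_mod_cast h
      have := mul_le_mul_of_nonneg_left this hRz.le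
      nlinarith
  have hsum : ∑ i ∈ range M, (V i).card ≤ T := by
    rw [← card_biUnion hdisj]
    refine (card_le_card ?_).trans hBT
    intro x hx
    obtain ⟨i, -, hi⟩ := mem_biUnion.1 hx
    exact (mem_filter.1 hi).1
  -- good windows
  let good := (range M).filter fun i => (V i).card ≤ q
  let bad := (range M).filter fun i => ¬ (V i).card ≤ q
  have hgb : good.card + bad.card = M := by
    have := card_filter_add_card_filter_not (s := range M) (fun i => (V i).card ≤ q)
    rwa [card_range] at this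
  have hbad : bad.card * q ≤ T := by
    calc bad.card * q = ∑ i ∈ bad, q := by rw [sum_const, smul_eq_mul]
      _ ≤ ∑ i ∈ bad, (V i).card := sum_le_sum fun i hi => by
          have := (mem_filter.1 hi).2
          omega
      _ ≤ ∑ i ∈ range M, (V i).card := sum_le_sum_of_subset (filter_subset _ _)
      _ ≤ T := hsum
  have hgood : M ≤ 2 * good.card := by
    have h3 : q * (2 * bad.card) ≤ q * M := by
      calc q * (2 * bad.card) = 2 * (bad.card * q) := by ring
        _ ≤ 2 * T := by omega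
        _ ≤ q * M := h1
    have h4 := Nat.le_of_mul_le_mul_left h3 hq
    omega
  have henum : ∀ i ∈ good, ∃ e : X → Fin q, Set.InjOn e (V i : Set X) := fun i hi =>
    enum hq _ (mem_filter.1 hi).2
  have hne : Nonempty (X → Fin q) := ⟨fun _ => ⟨0, hq⟩⟩
  choose! e he using henum
  have hpig : (univ : Finset (Code S q R)).card < good.card := by
    rw [card_univ, card_code]
    omega
  obtain ⟨i, hi, j, hj, hij, hcode⟩ := exists_ne_map_eq_of_card_lt_of_maps_to hpig
    (f := fun i => code S A lam x0 q R i (e i)) (fun i _ => mem_univ _)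
  wlog hlt : i < j generalizing i j
  · exact this j hj i hi (Ne.symm hij) hcode.symm (by omega)
  have hiM : i < M := mem_range.1 (mem_filter.1 hi).1
  have hjM : j < M := mem_range.1 (mem_filter.1 hj).1
  have hinji : Set.InjOn (e i) (Vw lam R i) := fun x hx y hy => he i hi
    (mem_coe.2 ((hVmem i hiM x).2 hx)) (mem_coe.2 ((hVmem i hiM y).2 hy))
  have hinjj : Set.InjOn (e j) (Vw lam R j) := fun x hx y hy => he j hj
    (mem_coe.2 ((hVmem j hjM x).2 hx)) (mem_coe.2 ((hVmem j hjM y).2 hy))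
  obtain ⟨φ, hφ, hφs, hφe, hφ0⟩ := map_of_code hcode hinjj
  obtain ⟨ψ, hψ, hψs, -, -⟩ := map_of_code hcode.symm hinji
  have hwin : ∀ (i : ℕ) (x : X), x ∈ Vw lam R i ↔ ctr R i - R ≤ lam x ∧ lam x < ctr R i + R := by
    intro i x
    unfold Vw ctr
    simp only [Set.mem_ofPred_eq]
    constructor
    · rintro ⟨a, b⟩
      constructor <;> linarith
    · rintro ⟨a, b⟩
      constructor <;> linarith
  have hRz : (1 : ℤ) ≤ R := by exact_mod_cast hR
  have hcc : ctr R i + R ≤ ctr R j - R := by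
    unfold ctr
    have : (i : ℤ) + 1 ≤ j := by exact_mod_cast hlt
    have := mul_le_mul_of_nonneg_left this (by positivity : (0 : ℤ) ≤ 2 * R)
    linarith
  have hstrip : Strip (S : Set G) (R : ℤ) lam (ctr R i) (ctr R j) φ ψ :=
    { inv_mem := fun s hs => mem_coe.2 (hinv s (mem_coe.1 hs))
      hR := hRz
      hrr := hcc
      lip := fun s hs x => hlip s (mem_coe.1 hs) x
      φ_lev := fun x a b => (hφ x ((hwin i x).2 ⟨a, b⟩)).2.2
      ψ_lev := fun y a b => by
        have := (hψ y ((hwin j y).2 ⟨a, b⟩)).2.2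
        linarith
      ψφ := fun x a b => by
        have hx := (hwin i x).2 ⟨a, b⟩
        have h3 := hφ x hx
        have h4 := hψ _ h3.1
        exact hinji h4.1 hx (h4.2.1.trans h3.2.1)
      φψ := fun y a b => by
        have hy := (hwin j y).2 ⟨a, b⟩
        have h3 := hψ y hy
        have h4 := hφ _ h3.1
        exact hinjj h4.1 hy (h4.2.1.trans h3.2.1)
      φ_smul := fun s hs x a b a' b' =>
        hφs s (mem_coe.1 hs) x ((hwin i x).2 ⟨a, b⟩) ((hwin i _).2 ⟨a', b'⟩)
      ψ_smul := fun s hs x a b a' b' =>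
        hψs s (mem_coe.1 hs) x ((hwin j x).2 ⟨a, b⟩) ((hwin j _).2 ⟨a', b'⟩) }
  have hctrn : ctr R j + R ≤ n := by
    unfold ctr
    have h3 : 2 * R * (j + 1) ≤ 2 * R * M := Nat.mul_le_mul_left _ hjM
    have h4 : ((2 * R * (j + 1) : ℕ) : ℤ) ≤ (n : ℤ) := by exact_mod_cast h3.trans hM
    push_cast at h4
    linarith
  obtain ⟨f, c, hf1, hf2, hf3⟩ := hstrip.exists_potential (by exact_mod_cast hN) hLG hcl
    hK (hfin.subset fun x hx => by
      have := hx.2
      simp only [Set.mem_ofPred_eq]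
      linarith)
  refine no_travel hstrip hAS ?_ (fun s hs => hf1 s (hAS hs) (hAK hs)) hf2 hf3 (x0 := x0) ?_ ?_ ?_
  · intro x y a b c' d hE
    exact hφe x ((hwin i x).2 ⟨a, by linarith⟩) y ((hwin i y).2 ⟨c', by linarith⟩) b d hE
  · rw [hx0]
    unfold ctr
    positivity
  · intro y a b hE
    exact hφ0 y ((hwin i y).2 ⟨a, by linarith⟩) b hE
  · obtain ⟨y, hy, hk⟩ := hreach
    exact ⟨y, hy, by linarith⟩

end H84.Sch
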